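import Pool.Agent.TH112.BL.Mean
import Pool.Agent.H970R2.X.Defs
import Pool.Agent.H807R2.Dav1

/-!
Project LT (helper872): triples `r, r+a, r+b` of quadratic residues (MP_b311ff_nt, E. Lehmer).
Definitions and statements of the parts.

Plan. If the threshold is infinite for a pair `(a,b)`, a limit of Legendre symbols is a completely
multiplicative `f : ℕ → {1,-1}` with no `n ≥ 1` such that `f n = f (n+a) = f (n+b) = 1` (`S_CPT`).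
If `f` pretends to be a real character, this is refuted by local choices and a sieve (`S_PRET`).
Otherwise the short averages of `f` in residue classes vanish for logarithmic means (Matomaki and
Radziwill), hence all two-point correlations vanish for such means (Tao), hence `f(n)f(n+a)f(n+b)=-1`
for almost all `n`, hence `f` is almost everywhere periodic, a contradiction.
-/

set_option autoImplicit false

namespace Pool.Agent.Y872.L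

open Finset Filter
open Pool.Agent.TH112.BL (LM Bd QD)
open Pool.Agent.H376R2.MR (ch w bw WN FK)
open Pool.Agent.H970R2.X (GGg)
open Pool.Agent.H807R2.Dav (ee)

/-- completely multiplicative functions with values `±1` on the positive integers -/
structure CM (f : ℕ → ℤ) : Prop where
  zero : f 0 = 0
  one : f 1 = 1
  mul : ∀ m n : ℕ, f (m * n) = f m * f n
  val : ∀ n : ℕ, 0 < n → f n = 1 ∨ f n = -1

open scoped Classical in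
/-- `f` pretends to be the character `χ` -/
def Pr (f : ℕ → ℤ) (Q : ℕ) (χ : DirichletCharacter ℂ Q) : Prop :=
  Summable (fun p : ℕ => if p.Prime ∧ (f p : ℂ) ≠ χ (p : ZMod Q) then 1 / (p : ℝ) else 0)

/-- `f` pretends to be no real character -/
def NonPret (f : ℕ → ℤ) : Prop :=
  ∀ Q : ℕ, 0 < Q → ∀ χ : DirichletCharacter ℂ Q, χ ^ 2 = 1 → ¬ Pr f Q χ

/-- the exceptional pairs -/
def Exc (a b : ℕ) : Prop :=
  (a % 3, b % 3) ∈ ({(1, 2), (2, 1)} : Finset (ℕ × ℕ)) ∨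
  (a % 5, b % 5) ∈ ({(1, 3), (3, 1), (2, 3), (3, 2), (2, 4), (4, 2)} : Finset (ℕ × ℕ)) ∨
  (a % 7, b % 7) ∈ ({(1, 5), (5, 1), (2, 3), (3, 2), (4, 6), (6, 4)} : Finset (ℕ × ℕ))

/-- `r` is a quadratic residue of `p` -/
def QRes (p r : ℕ) : Prop := ¬ p ∣ r ∧ ∃ x : ℕ, x ^ 2 ≡ r [MOD p]

/-- restriction to a residue class (the same as `TH823.MRS.rs`) -/
def rs (f : ℕ → ℤ) (q b : ℕ) : ℕ → ℤ := fun n => if n % q = b then f n else 0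

/-! ### Compactness and the pretentious case -/

/-- CPT -/
def S_CPT : Prop := ∀ a b : ℕ,
  (∀ N p₀ : ℕ, ∃ p : ℕ, p.Prime ∧ p₀ < p ∧
    ∀ r : ℕ, 1 ≤ r → r ≤ N → ¬ (QRes p r ∧ QRes p (r + a) ∧ QRes p (r + b))) →
  ∃ f : ℕ → ℤ, CM f ∧ ∀ n : ℕ, 0 < n → ¬ (f n = 1 ∧ f (n + a) = 1 ∧ f (n + b) = 1)

/-- PAT: for `p ≥ 5` some `x` such that `x, x+a, x+b` are residues, at most one of them
divisible by `p` -/
def S_PAT : Prop := ∀ p : ℕ, p.Prime → 5 ≤ p → ∀ a b : ℕ, ¬ Exc a b → ∃ x : ℕ,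
  (p ∣ x ∨ QRes p x) ∧ (p ∣ x + a ∨ QRes p (x + a)) ∧ (p ∣ x + b ∨ QRes p (x + b)) ∧
  ¬ (p ∣ x ∧ p ∣ x + a) ∧ ¬ (p ∣ x ∧ p ∣ x + b) ∧ ¬ (p ∣ x + a ∧ p ∣ x + b)

/-- local quadratic characters: homomorphisms to `±1`, locally constant on the `p`-adic units -/
structure Loc (p : ℕ) (σ : ℕ → ℤ) : Prop where
  val : ∀ x : ℕ, 0 < x → σ x = 1 ∨ σ x = -1
  mul : ∀ x y : ℕ, 0 < x → 0 < y → σ (x * y) = σ x * σ y
  cont : ∃ K : ℕ, ∀ x y : ℕ, ¬ p ∣ x → x ≡ y [MOD p ^ K] → σ x = σ y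

/-- LOC: the local problem is solvable -/
def S_LOC : Prop := ∀ p : ℕ, p.Prime → ∀ a b : ℕ, 0 < a → a < b → ¬ Exc a b →
  ∀ σ : ℕ → ℤ, Loc p σ → ∃ r L : ℕ, ∀ n : ℕ, 0 < n → n ≡ r [MOD p ^ L] →
    (σ n = 1 ∧ σ (n + a) = 1 ∧ σ (n + b) = 1) ∧
    ¬ p ^ L ∣ n ∧ ¬ p ^ L ∣ n + a ∧ ¬ p ^ L ∣ n + b

/-- PRET: the pretentious case -/
def S_PRET : Prop := ∀ f : ℕ → ℤ, CM f → ∀ Q : ℕ, 0 < Q → ∀ χ : DirichletCharacter ℂ Q,
  χ ^ 2 = 1 → Pr f Q χ → ∀ a b : ℕ, 0 < a → a < b → ¬ Exc a b →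
  ∃ n : ℕ, 0 < n ∧ f n = 1 ∧ f (n + a) = 1 ∧ f (n + b) = 1

/-! ### Small frequencies -/

/-- SUP: the generating functions are `o(1/δ)` near the line `1` -/
def S_SUP : Prop := ∀ f : ℕ → ℤ, CM f → NonPret f → ∀ q : ℕ, 0 < q →
  ∀ χ : DirichletCharacter ℂ q, ∀ B η : ℝ, 0 < η → ∃ δ₀ : ℝ, 0 < δ₀ ∧ δ₀ ≤ 1 ∧
    ∀ δ : ℝ, 0 < δ → δ < δ₀ → ∀ y : ℝ, |y| ≤ B →
      δ * ‖∑' n : ℕ, ((f n : ℂ) * χ (n : ZMod q)) * (n : ℂ) ^ (-((1 + δ : ℝ) + y * Complex.I : ℂ))‖ ≤ η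

/-- LOWC: from `SUP` to mean squares over the scales -/
def S_LOWC : Prop := ∀ c : ℕ → ℂ, c 0 = 0 → c 1 = 1 → (∀ m n, c (m * n) = c m * c n) →
  (∀ n, ‖c n‖ ≤ 1) →
  (∀ B η : ℝ, 0 < η → ∃ δ₀ : ℝ, 0 < δ₀ ∧ δ₀ ≤ 1 ∧ ∀ δ : ℝ, 0 < δ → δ < δ₀ → ∀ y : ℝ, |y| ≤ B →
    δ * ‖∑' n : ℕ, c n * (n : ℂ) ^ (-((1 + δ : ℝ) + y * Complex.I : ℂ))‖ ≤ η) →
  ∀ k : ℤ, ∀ ε : ℝ, 0 < ε → ∃ T₀ : ℝ, 0 < T₀ ∧ ∀ T : ℝ, T₀ ≤ T →
    ∫ t in (0 : ℝ)..T, ‖∑ n ∈ WN (Real.exp t), c n * (bw (Real.exp t) n : ℂ) *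
      ch k (Real.log n)‖ ^ 2 ≤ ε * T

/-- LOW: the small frequencies vanish at most scales -/
def S_LOW : Prop := ∀ f : ℕ → ℤ, CM f → NonPret f → ∀ q c : ℕ, 0 < q → c < q → ∀ k : ℤ,
  Tendsto (fun I : ℕ => (∑ i ∈ range I, ‖GGg (rs f q c) (Real.exp i) k‖ ^ 2) / I) atTop (nhds 0)

/-! ### Logarithmic means -/

/-- the short averages in residue classes vanish -/
def RR (μ : LM) (f : ℕ → ℤ) : Prop := ∀ q c : ℕ, 0 < q → c < q → ∀ ε : ℝ, 0 < ε →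
  ∃ W₀ : ℕ, ∀ W : ℕ, W₀ ≤ W → μ.m (fun n => |∑ j ∈ range W, (rs f q c (n + j) : ℝ)|) ≤ ε * W

/-- the short exponential sums vanish, uniformly in the frequency -/
def UU (μ : LM) (f : ℕ → ℤ) : Prop := ∀ ε : ℝ, 0 < ε → ∃ W₀ : ℕ, ∀ W : ℕ, W₀ ≤ W → ∀ α : ℝ,
  μ.m (fun n => ‖∑ j ∈ range W, (f (n + j) : ℂ) * ee ((j : ℝ) * α)‖) ≤ ε * W

/-- the correlation of order two -/
noncomputable def C2 (μ : LM) (f : ℕ → ℤ) (h : ℕ) : ℝ := μ.m (fun n => (f n : ℝ) * f (n + h))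

/-- the correlations along the primes vanish -/
def EE (μ : LM) (f : ℕ → ℤ) : Prop := ∀ h : ℕ, 0 < h → ∀ ε : ℝ, 0 < ε → ∃ i₀ : ℕ, ∀ i : ℕ, i₀ ≤ i →
  ∑ p ∈ QD i (i + 1), Real.log p / 2 ^ i * |C2 μ f (p * h)| ≤ ε

/-- U: exponential sums from residue classes (Daboussi, Turan-Kubilius) -/
def S_U : Prop := ∀ (μ : LM) (f : ℕ → ℤ), CM f → RR μ f → UU μ f

/-- E: correlations along the primes from exponential sums -/
def S_E : Prop := ∀ (μ : LM) (f : ℕ → ℤ), CM f → UU μ f → EE μ f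

/-- D: correlations of order two vanish (Tao's decoupling) -/
def S_D : Prop := ∀ (μ : LM) (f : ℕ → ℤ), CM f → EE μ f → ∀ h : ℕ, 0 < h → C2 μ f h = 0

/-- F: the end of the non-pretentious case -/
def S_F : Prop := ∀ (μ : LM) (f : ℕ → ℤ), CM f → μ.m (fun n => (f n : ℝ)) = 0 →
  (∀ h : ℕ, 0 < h → C2 μ f h = 0) → ∀ a b : ℕ, 0 < a → a < b →
  ∃ n : ℕ, 0 < n ∧ f n = 1 ∧ f (n + a) = 1 ∧ f (n + b) = 1

end Pool.Agent.Y872.L
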