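import Pool.Agent.Y872.L.Mean
import Pool.Agent.Y862.LT.PatS
import Pool.Agent.Y815.LT.Loc
import Pool.Agent.Y815.LT.Cpt
import Pool.Agent.Y917.LT.Pret
import Pool.Agent.Y814.LT.Low
import Pool.Agent.Y814.LT.F
import Pool.Agent.Y474.LT.U
import Pool.Agent.Y290.LT.D
import Pool.Agent.Y122.LT.LowC

/-!
Project LT (helper872): assembly, from the two last parts `S_SUP` and `S_E`.
-/

set_option autoImplicit false

namespace Pool.Agent.Y872.L

open Finset Filter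
open Pool.Agent.TH112.BL (LM Bd)

/-- every completely multiplicative function with values `±1` has the triple -/
theorem triple (hsup : S_SUP) (hE : S_E) (f : ℕ → ℤ) (hf : CM f) (a b : ℕ) (ha : 0 < a)
    (hab : a < b) (hex : ¬ Exc a b) :
    ∃ n : ℕ, 0 < n ∧ f n = 1 ∧ f (n + a) = 1 ∧ f (n + b) = 1 := by
  by_cases hn : NonPret f
  · have hlow := Pool.Agent.Y814.LT.low hsup Pool.Agent.Y122.LT.lowc f hf hn
    obtain ⟨μ, hRR, h1⟩ := exists_mean f hf hlow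
    have hU := Pool.Agent.Y474.LT.uu_of_rr μ f hf hRR
    have h2 := Pool.Agent.Y290.LT.D.c2_zero μ f hf (hE μ f hf hU)
    exact Pool.Agent.Y814.LT.fin μ f hf h1 h2 a b ha hab
  · unfold NonPret at hn
    push Not at hn
    obtain ⟨Q, hQ, χ, hχ, hP⟩ := hn
    exact Pool.Agent.Y917.LT.pret (Pool.Agent.Y815.LT.loc Pool.Agent.Y862.LT.pat) f hf Q hQ χ hχ hP
      a b ha hab hex

/-- the threshold is finite -/
theorem threshold (hsup : S_SUP) (hE : S_E) (a b : ℕ) (ha : 0 < a) (hab : a < b)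
    (hex : ¬ Exc a b) : ∃ N p₀ : ℕ, ∀ p : ℕ, p.Prime → p₀ < p →
      ∃ r : ℕ, 1 ≤ r ∧ r ≤ N ∧ QRes p r ∧ QRes p (r + a) ∧ QRes p (r + b) := by
  by_contra hcon
  push Not at hcon
  obtain ⟨f, hf, hno⟩ := Pool.Agent.Y815.LT.cpt a b (by
    intro N p₀
    obtain ⟨p, hp, hpp, h⟩ := hcon N p₀
    refine ⟨p, hp, hpp, fun r h1 h2 h3 => ?_⟩
    exact h r h1 h2 h3.1 h3.2.1 h3.2.2)
  obtain ⟨n, hn, h1⟩ := triple hsup hE f hf a b ha hab hex
  exact hno n hn h1

end Pool.Agent.Y872.L
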