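import Pool.Agent.H970R2.X.Dec

/-!
Project LT (helper872): the decomposition for functions with `g (p m) = u(p) g(m)`.
Adapted from `H970R2/X/Dec.lean`.
-/

set_option autoImplicit false

namespace Pool.Agent.Y872.L
open Finset Filter Pool.Agent.H376R2.MR Pool.Agent.H970R2.X

/-- `g (p m) = u(p) g(m)` for the primes with property `P`, and `u(p)^2 = 1` -/
def Tw (P : ℕ → Prop) (u g : ℕ → ℤ) : Prop :=
  ∀ p m : ℕ, p.Prime → P p → u p * g m = g (p * m)

/-- the twisted prime sums -/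
noncomputable def PPf (P : ℕ → Prop) (u : ℕ → ℤ) (H v : ℕ) (k : ℤ) : ℂ :=
  ∑ p ∈ cellP P H v, (u p : ℂ) * (ch k (Real.log p) / (p : ℂ))

theorem decf_sum (P : ℕ → Prop) (u g : ℕ → ℤ) (hf : Tw P u g) {H v₀ v₁ : ℕ} (hH : 1 ≤ H) {Y : ℝ}
    (hY : 1 ≤ Y) (k : ℤ) :
    ∑ v ∈ Ico v₀ v₁, PPf P u H v k * GGg g (Y * Real.exp (-((v : ℝ) / H))) k =
      ∑ n ∈ decS Y, (((g n : ℝ) * xdecT P H v₀ v₁ Y n / n : ℝ) : ℂ) * ch k (Real.log n) := by
  have h1 : ∀ v ∈ Ico v₀ v₁, PPf P u H v k * GGg g (Y * Real.exp (-((v : ℝ) / H))) k =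
      ∑ n ∈ decS Y, ∑ p ∈ (cellP P H v).filter (fun p => p ∣ n),
        (((g n : ℂ) *
          ((w (Real.log n - Real.log Y - (Real.log p - (v : ℝ) / H)) / n : ℝ) : ℂ)) *
          ch k (Real.log n)) := by
    intro v _
    unfold PPf
    rw [Finset.sum_mul]
    have : ∀ p ∈ cellP P H v,
        (u p : ℂ) * (ch k (Real.log p) / (p : ℂ)) * GGg g (Y * Real.exp (-((v : ℝ) / H))) k =
        ∑ n ∈ decS Y, if p ∣ n then
          (((g n : ℂ) *
            ((w (Real.log n - Real.log Y - (Real.log p - (v : ℝ) / H)) / n : ℝ) : ℂ)) *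
          ch k (Real.log n)) else 0 := by
      intro p hp
      obtain ⟨hp1, hp2⟩ := xdec_cellP hp
      have hpp := (dec_cell hp1).1
      rw [mul_assoc, xdec_one g hH hp1 hY k, Finset.mul_sum, ← Finset.sum_filter]
      refine Finset.sum_congr rfl fun n hn => ?_
      obtain ⟨m, rfl⟩ := (mem_filter.mp hn).2
      rw [Nat.mul_div_cancel_left m hpp.pos]
      have h2 : (u p : ℂ) * (g m : ℂ) = (g (p * m) : ℂ) := by
        rw [← hf p m hpp hp2]
        push_cast
        ring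
      rw [← h2]
      ring
    rw [Finset.sum_congr rfl this, Finset.sum_comm]
    refine Finset.sum_congr rfl fun n _ => ?_
    rw [Finset.sum_filter]
  rw [Finset.sum_congr rfl h1, Finset.sum_comm]
  refine Finset.sum_congr rfl fun n _ => ?_
  unfold xdecT
  push_cast
  simp only [Finset.mul_sum, Finset.sum_div, Finset.sum_mul]
  refine Finset.sum_congr rfl fun v _ => Finset.sum_congr rfl fun p _ => ?_
  ring

theorem dec_f (P : ℕ → Prop) (u g : ℕ → ℤ) (hb : Bdd g) (hf : Tw P u g) :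
    ∃ C : ℝ, 0 < C ∧ ∀ H v₀ v₁ : ℕ, 1 ≤ H → 1 ≤ WWp P H v₀ v₁ → ∀ Y : ℝ,
    Real.exp (4 * (v₁ : ℝ) / H) ≤ Y → ∃ (s : Finset ℕ) (a : ℕ → ℂ),
      (∀ n ∈ s, Y / Real.exp 2 ≤ (n : ℝ) ∧ (n : ℝ) ≤ Real.exp 2 * Y) ∧
      (∀ k : ℤ, GGg g Y k = (1 / (WWp P H v₀ v₁ : ℂ)) *
        ∑ v ∈ Ico v₀ v₁, PPf P u H v k * GGg g (Y * Real.exp (-((v : ℝ) / H))) k + DP s a k) ∧
      ∑ n ∈ s, (n : ℝ) * ‖a n‖ ^ 2 ≤ C * (1 / WWp P H v₀ v₁ + 1 / (H : ℝ) ^ 2) := by
  obtain ⟨C, hC, htk⟩ := tk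
  refine ⟨2 * (6 * C + 4 * (Real.exp 2 * Real.exp 2)), by positivity, ?_⟩
  intro H v₀ v₁ hH hW Y hexp
  set W := WWp P H v₀ v₁ with hWdef
  have hY : 1 ≤ Y := by
    refine le_trans ?_ hexp
    rw [← Real.exp_zero]
    apply Real.exp_le_exp.mpr; positivity
  have hY0 : 0 < Y := by linarith
  have hH0 : (0:ℝ) < H := by exact_mod_cast hH
  have hH1 : (1:ℝ) ≤ H := by exact_mod_cast hH
  have hW0 : 0 < W := by linarith
  have hWc : (W : ℂ) ≠ 0 := by exact_mod_cast hW0.ne'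
  set S : Finset ℕ := (Ico v₀ v₁).biUnion (cellP P H) with hS
  have hdisj : Set.PairwiseDisjoint (↑(Ico v₀ v₁) : Set ℕ) (cellP P H) := by
    intro v _ v' _ hne
    rw [Function.onFun, Finset.disjoint_left]
    intro p hp hp'
    exact hne (dec_disj hH (xdec_cellP hp).1 (xdec_cellP hp').1)
  have hSP : ∀ p ∈ S, p.Prime ∧ P p := by
    intro p hp
    rw [hS, mem_biUnion] at hp
    obtain ⟨v, hv, hp⟩ := hp
    exact ⟨(dec_cell (xdec_cellP hp).1).1, (xdec_cellP hp).2⟩
  have hWS : ∑ p ∈ S, 1 / (p : ℝ) = W := by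
    rw [hS, Finset.sum_biUnion hdisj, hWdef]; rfl
  have hom : ∀ (q : ℕ → Prop) [DecidablePred q], ((S.filter q).card : ℝ) =
      ∑ v ∈ Ico v₀ v₁, (((cellP P H v).filter q).card : ℝ) := by
    intro q _
    rw [hS, Finset.filter_biUnion, Finset.card_biUnion]
    · push_cast; rfl
    · intro v hv v' hv' hne
      rw [Function.onFun, Finset.disjoint_left]
      intro p hp hp'
      exact hne (dec_disj hH (xdec_cellP (mem_filter.mp hp).1).1
        (xdec_cellP (mem_filter.mp hp').1).1)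
  have hTK := htk S (Real.exp ((v₁ : ℝ) / H)) Y (by
    intro p hp
    rw [hS, mem_biUnion] at hp
    obtain ⟨v, hv, hp⟩ := hp
    obtain ⟨h1, h2, h3⟩ := dec_cell (xdec_cellP hp).1
    refine ⟨h1, ?_⟩
    have hp0 : (0:ℝ) < p := by exact_mod_cast h1.pos
    rw [← Real.log_le_iff_le_exp hp0]
    refine h3.le.trans ?_
    apply div_le_div_of_nonneg_right _ hH0.le
    have := (mem_Ico.mp hv).2
    exact_mod_cast this) (by rw [hWS]; exact hW) (by
    rw [← Real.exp_nat_mul]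
    refine le_trans (le_of_eq ?_) hexp
    congr 1; push_cast; ring)
  rw [hWS] at hTK
  refine ⟨decS Y, fun n => ((((g n : ℝ) *
    (w (Real.log n - Real.log Y) - xdecT P H v₀ v₁ Y n / W)) / n : ℝ) : ℂ), ?_, ?_, ?_⟩
  · intro n hn
    exact ⟨(dec_mem hY hn).2.1, (dec_mem hY hn).2.2⟩
  · intro k
    rw [decf_sum P u g hf hH hY k, xdec_GG g hY k]
    unfold DP
    rw [Finset.mul_sum, ← Finset.sum_add_distrib]
    refine Finset.sum_congr rfl fun n hn => ?_
    have hn1 := (dec_mem hY hn).1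
    have hnc : (n : ℂ) ≠ 0 := by exact_mod_cast (by omega : n ≠ 0)
    push_cast
    field_simp
    ring
  · have hterm : ∀ n ∈ decS Y, (n : ℝ) * ‖((((g n : ℝ) *
        (w (Real.log n - Real.log Y) - xdecT P H v₀ v₁ Y n / W)) / n : ℝ) : ℂ)‖ ^ 2 ≤
        2 * ((2 / W ^ 2 + 4 / (H ^ 2 * W ^ 2)) *
          ((((S.filter (fun p => p ∣ n)).card : ℝ) - W) ^ 2 / n) +
          4 / H ^ 2 * (1 / n)) := by
      intro n hn
      have hn1 := (dec_mem hY hn).1
      have hn0 : (0:ℝ) < n := by exact_mod_cast hn1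
      rw [Complex.norm_real, Real.norm_eq_abs, sq_abs, div_pow]
      set om : ℝ := ((S.filter (fun p => p ∣ n)).card : ℝ) with hom'
      have hT : |om * w (Real.log n - Real.log Y) - xdecT P H v₀ v₁ Y n| ≤ om / H := by
        have e1 : om * w (Real.log n - Real.log Y) - xdecT P H v₀ v₁ Y n =
          ∑ v ∈ Ico v₀ v₁, ∑ p ∈ (cellP P H v).filter (fun p => p ∣ n),
            (w (Real.log n - Real.log Y) -
              w (Real.log n - Real.log Y - (Real.log p - (v : ℝ) / H))) := by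
          unfold xdecT
          rw [hom', hom (fun p => p ∣ n), Finset.sum_mul, ← Finset.sum_sub_distrib]
          refine Finset.sum_congr rfl fun v _ => ?_
          rw [Finset.sum_sub_distrib, Finset.sum_const, nsmul_eq_mul]
        have e2 : om / H =
            ∑ v ∈ Ico v₀ v₁, ∑ p ∈ (cellP P H v).filter (fun p => p ∣ n), 1 / (H : ℝ) := by
          rw [hom', hom (fun p => p ∣ n), Finset.sum_div]
          refine Finset.sum_congr rfl fun v _ => ?_
          rw [Finset.sum_const, nsmul_eq_mul]; ring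
        rw [e1, e2]
        refine (Finset.abs_sum_le_sum_abs _ _).trans (Finset.sum_le_sum fun v _ => ?_)
        refine (Finset.abs_sum_le_sum_abs _ _).trans (Finset.sum_le_sum fun p hp => ?_)
        obtain ⟨h1, h2, h3⟩ := dec_cell (xdec_cellP (mem_filter.mp hp).1).1
        refine (dec_w_lip _ _).trans ?_
        have e3 : Real.log n - Real.log Y - (Real.log n - Real.log Y - (Real.log p - (v : ℝ) / H)) =
          Real.log p - (v : ℝ) / H := by ring
        rw [e3, abs_of_nonneg (by linarith)]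
        have e4 : ((v : ℝ) + 1) / H = (v : ℝ) / H + 1 / H := by ring
        linarith
      have hr := dec_real hW hH1 (dec_w_nonneg (Real.log n - Real.log Y))
        (dec_w_le (Real.log n - Real.log Y)) (by positivity : 0 ≤ om) hT
      have hg : (g n : ℝ) ^ 2 ≤ 1 := by
        have h2 : |(g n : ℝ)| ≤ 1 := by
          have := hb n
          rw [← Int.cast_abs]; exact_mod_cast this
        rw [← sq_abs]
        nlinarith [abs_nonneg (g n : ℝ)]
      set D : ℝ := w (Real.log n - Real.log Y) - xdecT P H v₀ v₁ Y n / W with hD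
      have hmain : ((g n : ℝ) * D) ^ 2 ≤
          2 * (((om - W) ^ 2 / W ^ 2 +
              (2 * (om - W) ^ 2 + 2 * W ^ 2) / ((H : ℝ) ^ 2 * W ^ 2))) := by
        have h2 : ((g n : ℝ) * D) ^ 2 ≤ D ^ 2 := by
          rw [mul_pow]
          nlinarith [sq_nonneg D]
        linarith
      have hnn : 0 ≤ ((om - W) ^ 2 / W ^ 2 +
              (2 * (om - W) ^ 2 + 2 * W ^ 2) / ((H : ℝ) ^ 2 * W ^ 2)) := by positivity
      calc (n : ℝ) * (((g n : ℝ) * D) ^ 2 / (n : ℝ) ^ 2)
          = (1 / n) * ((g n : ℝ) * D) ^ 2 := by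
            field_simp
        _ ≤ (1 / n) * (2 * (2 * ((om - W) ^ 2 / W ^ 2 +
              (2 * (om - W) ^ 2 + 2 * W ^ 2) / ((H : ℝ) ^ 2 * W ^ 2)))) := by
            apply mul_le_mul_of_nonneg_left _ (by positivity)
            linarith
        _ = _ := by field_simp; ring
    refine (Finset.sum_le_sum hterm).trans ?_
    rw [← Finset.mul_sum, Finset.sum_add_distrib,
      ← Finset.mul_sum, ← Finset.mul_sum]
    have hinv := dec_sum_inv hY
    have hTK' : ∑ n ∈ decS Y, (((S.filter (fun p => p ∣ n)).card : ℝ) - W) ^ 2 / n ≤ C * W := hTK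
    have hc : 0 ≤ 2 / W ^ 2 + 4 / ((H : ℝ) ^ 2 * W ^ 2) := by positivity
    have hold : (2 / W ^ 2 + 4 / ((H : ℝ) ^ 2 * W ^ 2)) *
          ∑ n ∈ decS Y, (((S.filter (fun p => p ∣ n)).card : ℝ) - W) ^ 2 / n +
          4 / (H : ℝ) ^ 2 * ∑ n ∈ decS Y, (1 : ℝ) / n
        ≤ (6 * C + 4 * (Real.exp 2 * Real.exp 2)) * (1 / W + 1 / (H : ℝ) ^ 2) := by
      calc (2 / W ^ 2 + 4 / ((H : ℝ) ^ 2 * W ^ 2)) *
            ∑ n ∈ decS Y, (((S.filter (fun p => p ∣ n)).card : ℝ) - W) ^ 2 / n +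
            4 / (H : ℝ) ^ 2 * ∑ n ∈ decS Y, (1 : ℝ) / n
          ≤ (2 / W ^ 2 + 4 / ((H : ℝ) ^ 2 * W ^ 2)) * (C * W) +
            4 / (H : ℝ) ^ 2 * (Real.exp 2 * Real.exp 2) := by
            apply add_le_add
            · exact mul_le_mul_of_nonneg_left hTK' hc
            · apply mul_le_mul_of_nonneg_left hinv; positivity
        _ ≤ (6 / W ^ 2) * (C * W) + 4 / (H : ℝ) ^ 2 * (Real.exp 2 * Real.exp 2) := by
            have h6 : 4 / ((H : ℝ) ^ 2 * W ^ 2) ≤ 4 / W ^ 2 := by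
              apply div_le_div_of_nonneg_left (by norm_num) (by positivity)
              have : (1:ℝ) ≤ (H : ℝ) ^ 2 := by nlinarith
              nlinarith [sq_nonneg W]
            have h7 : 2 / W ^ 2 + 4 / ((H : ℝ) ^ 2 * W ^ 2) ≤ 6 / W ^ 2 := by
              have : (6:ℝ) / W ^ 2 = 2 / W ^ 2 + 4 / W ^ 2 := by ring
              linarith
            have := mul_le_mul_of_nonneg_right h7 (by positivity : 0 ≤ C * W)
            linarith
        _ = 6 * C * (1 / W) + 4 * (Real.exp 2 * Real.exp 2) * (1 / (H : ℝ) ^ 2) := by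
            field_simp
        _ ≤ (6 * C + 4 * (Real.exp 2 * Real.exp 2)) * (1 / W + 1 / (H : ℝ) ^ 2) := by
            have ha : 0 ≤ 1 / W := by positivity
            have hb : 0 ≤ 1 / (H : ℝ) ^ 2 := by positivity
            have he : 0 ≤ 4 * (Real.exp 2 * Real.exp 2) := by positivity
            have h1 : 0 ≤ 6 * C * (1 / (H : ℝ) ^ 2) := by positivity
            have h2 : 0 ≤ 4 * (Real.exp 2 * Real.exp 2) * (1 / W) := by positivity
            nlinarith
    calc _ ≤ 2 * ((6 * C + 4 * (Real.exp 2 * Real.exp 2)) * (1 / W + 1 / (H : ℝ) ^ 2)) :=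
          mul_le_mul_of_nonneg_left hold (by norm_num)
      _ = _ := by ring

end Pool.Agent.Y872.L
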