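import Pool.Agent.Y872.L.Mom
import Pool.Agent.Y872.L.M.LevA
import Pool.Agent.Y872.L.M.LevB
import Pool.Agent.Y872.L.M.Cnt
import Pool.Agent.Y872.L.M.Mach
import Pool.Agent.H970R2.X.Upart
import Pool.Agent.H970R2.X.Rap

/-!
Project LT (helper872): the machine applies to `G(k) = ∑ g(n) w(log(n/Y)) n^{-1-ik}` if
`g(pm) = u(p) g(m)` with real `u(p) = ±1` for the primes in a rich set.
-/

set_option autoImplicit false

namespace Pool.Agent.Y872.L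
open Finset Filter Pool.Agent.H376R2.MR Pool.Agent.H970R2.X Pool.Agent.Y872.L.M

theorem PPf_le (P : ℕ → Prop) {u : ℕ → ℤ} (hu : ∀ n, |u n| ≤ 1) (H v : ℕ) (k : ℤ) :
    ‖PPf P u H v k‖ ≤ mmp P H v := by
  unfold PPf mmp
  refine (norm_sum_le _ _).trans (Finset.sum_le_sum fun p _ => ?_)
  rw [norm_mul, norm_div, Complex.norm_natCast, ls_norm_ch]
  have h : ‖(u p : ℂ)‖ ≤ 1 := by
    rw [Complex.norm_intCast]
    exact_mod_cast hu p
  calc ‖(u p : ℂ)‖ * (1 / (p : ℝ)) ≤ 1 * (1 / (p : ℝ)) :=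
        mul_le_mul_of_nonneg_right h (by positivity)
    _ = 1 / (p : ℝ) := one_mul _

theorem ch_two (k : ℤ) (x : ℝ) : ch (2 * k) x = ch k x ^ 2 := by
  unfold ch
  rw [← Complex.exp_nat_mul]
  congr 1
  push_cast
  ring

/-- Cauchy-Schwarz: real twists cannot resonate -/
theorem PPf_sq (P : ℕ → Prop) {u : ℕ → ℤ} (hu : ∀ n, |u n| ≤ 1) (H v : ℕ) (k : ℤ) :
    ‖PPf P u H v k‖ ^ 2 ≤ mmp P H v * ((mmp P H v + ‖PPp P H v (2 * k)‖) / 2) := by
  set z := PPf P u H v k with hz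
  obtain ⟨ω, hω, hωz⟩ : ∃ ω : ℂ, ‖ω‖ = 1 ∧ ω * z = (‖z‖ : ℂ) := by
    by_cases h0 : z = 0
    · exact ⟨1, by simp, by simp [h0]⟩
    · refine ⟨(starRingEnd ℂ) z / ‖z‖, ?_, ?_⟩
      · rw [norm_div, RCLike.norm_conj, Complex.norm_real, norm_norm, div_self]
        exact norm_ne_zero_iff.2 h0
      · have h1 : ((‖z‖ : ℝ) : ℂ) ≠ 0 := by exact_mod_cast norm_ne_zero_iff.2 h0
        rw [div_mul_eq_mul_div, mul_comm, Complex.mul_conj', pow_two]
        field_simp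
  set c : ℕ → ℝ := fun p => (ω * ch k (Real.log p)).re with hc
  have h1 : ‖z‖ = ∑ p ∈ cellP P H v, (u p : ℝ) * c p / (p : ℝ) := by
    have h2 : ‖z‖ = (ω * z).re := by rw [hωz, Complex.ofReal_re]
    rw [h2, hz]
    unfold PPf
    rw [Finset.mul_sum, Complex.re_sum]
    refine Finset.sum_congr rfl fun p _ => ?_
    have h3 : ω * ((u p : ℂ) * (ch k (Real.log p) / (p : ℂ))) =
        (((u p : ℝ) / (p : ℝ) : ℝ) : ℂ) * (ω * ch k (Real.log p)) := by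
      push_cast; ring
    rw [h3, Complex.re_ofReal_mul]
    simp only [hc]
    ring
  have h2 : ∀ p ∈ cellP P H v, c p ^ 2 =
      (1 + (ω ^ 2 * ch (2 * k) (Real.log p)).re) / 2 := by
    intro p _
    have hn : ‖ω * ch k (Real.log p)‖ = 1 := by rw [norm_mul, hω, ls_norm_ch, one_mul]
    have h3 : ω ^ 2 * ch (2 * k) (Real.log p) = (ω * ch k (Real.log p)) ^ 2 := by
      rw [ch_two, mul_pow]
    rw [h3]
    set ζ := ω * ch k (Real.log p) with hζ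
    have h4 : ζ.re ^ 2 + ζ.im ^ 2 = 1 := by
      have := Complex.sq_norm ζ
      rw [hn, Complex.normSq_apply] at this
      nlinarith
    have h5 : (ζ ^ 2).re = ζ.re ^ 2 - ζ.im ^ 2 := by
      rw [pow_two, Complex.mul_re]; ring
    simp only [hc]
    rw [h5]
    linarith
  have h3 : ‖z‖ ^ 2 ≤ (∑ p ∈ cellP P H v, 1 / (p : ℝ)) * ∑ p ∈ cellP P H v, c p ^ 2 / (p : ℝ) := by
    have hcs := Finset.sum_mul_sq_le_sq_mul_sq (cellP P H v)
      (fun p => (u p : ℝ) * Real.sqrt (1 / (p : ℝ))) (fun p => Real.sqrt (1 / (p : ℝ)) * c p)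
    have e1 : ∑ p ∈ cellP P H v, (u p : ℝ) * Real.sqrt (1 / (p : ℝ)) *
        (Real.sqrt (1 / (p : ℝ)) * c p) = ‖z‖ := by
      rw [h1]
      refine Finset.sum_congr rfl fun p _ => ?_
      have : Real.sqrt (1 / (p : ℝ)) * Real.sqrt (1 / (p : ℝ)) = 1 / (p : ℝ) :=
        Real.mul_self_sqrt (by positivity)
      calc _ = (u p : ℝ) * c p * (Real.sqrt (1 / (p : ℝ)) * Real.sqrt (1 / (p : ℝ))) := by ring
        _ = _ := by rw [this]; ring
    rw [e1] at hcs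
    refine hcs.trans ?_
    have e2 : ∑ p ∈ cellP P H v, ((u p : ℝ) * Real.sqrt (1 / (p : ℝ))) ^ 2 ≤
        ∑ p ∈ cellP P H v, 1 / (p : ℝ) := by
      refine Finset.sum_le_sum fun p _ => ?_
      rw [mul_pow, Real.sq_sqrt (by positivity)]
      have h4 : (u p : ℝ) ^ 2 ≤ 1 := by
        have h5 : |(u p : ℝ)| ≤ 1 := by
          rw [← Int.cast_abs]; exact_mod_cast hu p
        rw [← sq_abs]
        nlinarith [abs_nonneg (u p : ℝ)]
      have : (0 : ℝ) ≤ 1 / (p : ℝ) := by positivity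
      nlinarith
    have e3 : ∑ p ∈ cellP P H v, (Real.sqrt (1 / (p : ℝ)) * c p) ^ 2 =
        ∑ p ∈ cellP P H v, c p ^ 2 / (p : ℝ) := by
      refine Finset.sum_congr rfl fun p _ => ?_
      rw [mul_pow, Real.sq_sqrt (by positivity)]
      ring
    rw [e3]
    exact mul_le_mul_of_nonneg_right e2 (Finset.sum_nonneg fun p _ => by positivity)
  refine h3.trans ?_
  unfold mmp
  refine mul_le_mul_of_nonneg_left ?_ (Finset.sum_nonneg fun p _ => by positivity)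
  have h4 : ∑ p ∈ cellP P H v, c p ^ 2 / (p : ℝ) =
      (∑ p ∈ cellP P H v, 1 / (p : ℝ) + (ω ^ 2 * PPp P H v (2 * k)).re) / 2 := by
    unfold PPp
    rw [Finset.mul_sum, Complex.re_sum, ← Finset.sum_add_distrib, Finset.sum_div]
    refine Finset.sum_congr rfl fun p hp => ?_
    rw [h2 p hp]
    have h5 : ω ^ 2 * (ch (2 * k) (Real.log p) / (p : ℂ)) =
        ((1 / (p : ℝ) : ℝ) : ℂ) * (ω ^ 2 * ch (2 * k) (Real.log p)) := by
      push_cast; ring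
    rw [h5, Complex.re_ofReal_mul]
    ring
  rw [h4]
  have h5 : (ω ^ 2 * PPp P H v (2 * k)).re ≤ ‖PPp P H v (2 * k)‖ := by
    refine (Complex.re_le_norm _).trans ?_
    rw [norm_mul, norm_pow, hω, one_pow, one_mul]
  linarith

theorem cell_f (P : ℕ → Prop) {u : ℕ → ℤ} (hu : ∀ n, |u n| ≤ 1) (c : ℝ) (hc : 0 < c)
    (hR : Rich P c) :
    ∃ c' : ℝ, 0 < c' ∧ c' ≤ 1 ∧ ∀ M H : ℕ, 1 ≤ H → ∃ T₀ V₀ : ℕ, ∀ v : ℕ, V₀ ≤ v →
    ∀ k : ℤ, (T₀ : ℝ) ≤ |(k : ℝ)| → |(k : ℝ)| ≤ Real.exp (M * (v : ℝ) / H) →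
    ‖PPf P u H v k‖ ≤ (1 - c') * mmp P H v := by
  obtain ⟨c₀, h0, h1, hcell⟩ := cell_bound_gen P c hc hR
  refine ⟨c₀ / 4, by linarith, by linarith, fun M H hH => ?_⟩
  obtain ⟨T₀, v₀, hT⟩ := hcell (M + 1) H hH
  refine ⟨T₀, max v₀ H, fun v hv k hk1 hk2 => ?_⟩
  have hv0 : v₀ ≤ v := (le_max_left _ _).trans hv
  have hvH : H ≤ v := (le_max_right _ _).trans hv
  have hH0 : (0 : ℝ) < H := by exact_mod_cast hH
  have e1 : |((2 * k : ℤ) : ℝ)| = 2 * |(k : ℝ)| := by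
    push_cast
    rw [abs_mul, abs_two]
  have h2 := hT v hv0 (2 * k) (by
    rw [e1]
    have := abs_nonneg (k : ℝ)
    linarith) (by
    rw [e1]
    have h3 : (2 : ℝ) ≤ Real.exp ((v : ℝ) / H) := by
      have h4 : (1 : ℝ) ≤ (v : ℝ) / H := by
        rw [le_div_iff₀ hH0, one_mul]
        exact_mod_cast hvH
      have := Real.add_one_le_exp ((v : ℝ) / H)
      linarith
    calc 2 * |(k : ℝ)| ≤ Real.exp ((v : ℝ) / H) * Real.exp (M * (v : ℝ) / H) :=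
          mul_le_mul h3 hk2 (abs_nonneg _) (Real.exp_pos _).le
      _ = _ := by
        rw [← Real.exp_add]
        congr 1
        push_cast
        ring)
  have hm : 0 ≤ mmp P H v := xrap_mmp_nonneg P H v
  have h3 := PPf_sq P hu H v k
  have h4 : ‖PPf P u H v k‖ ^ 2 ≤ ((1 - c₀ / 4) * mmp P H v) ^ 2 := by
    refine h3.trans ?_
    have h5 : (mmp P H v + ‖PPp P H v (2 * k)‖) / 2 ≤ (1 - c₀ / 2) * mmp P H v := by linarith
    calc mmp P H v * ((mmp P H v + ‖PPp P H v (2 * k)‖) / 2)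
        ≤ mmp P H v * ((1 - c₀ / 2) * mmp P H v) := mul_le_mul_of_nonneg_left h5 hm
      _ ≤ _ := by nlinarith [sq_nonneg (c₀ * mmp P H v)]
  exact (pow_le_pow_iff_left₀ (norm_nonneg _) (mul_nonneg (by linarith) hm) (by norm_num)).1 h4

theorem fac_one (ℓ : ℕ) : (1 : ℝ) ≤ (ℓ.factorial : ℝ) := by
  exact_mod_cast Nat.one_le_iff_ne_zero.2 (Nat.factorial_ne_zero ℓ)

theorem fac8_ge (ℓ m : ℕ) (hm : m ≤ 8) : (ℓ.factorial : ℝ) ^ m ≤ (ℓ.factorial : ℝ) ^ 8 :=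
  pow_le_pow_right₀ (fac_one ℓ) hm

theorem succ_le_two_pow (ℓ : ℕ) : (ℓ : ℝ) + 1 ≤ 2 ^ ℓ := by
  have : ℓ + 1 ≤ 2 ^ ℓ := Nat.lt_two_pow_self
  exact_mod_cast this

theorem machR_f (P : ℕ → Prop) (u g : ℕ → ℤ) (hu : ∀ n, |u n| ≤ 1) (hb : Bdd g) (hf : Tw P u g)
    (c : ℝ) (hc : 0 < c) (hR : Rich P c) :
    MachR (fun H v k => -PPf P u H v k) (mmp P) (GGg g) := by
  obtain ⟨C₁, hC₁, hdec⟩ := dec_f P u g hb hf
  obtain ⟨C₂, hC₂, hmv⟩ := mv
  obtain ⟨β, hβ, hls⟩ := ls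
  obtain ⟨Z₁, hZ₁⟩ := hls 1 one_pos
  obtain ⟨Z₂, hZ₂⟩ := Filter.eventually_atTop.mp
    (wnorm.eventually (ge_mem_nhds (show (2 / 3 : ℝ) < 1 by norm_num)))
  have hpi : Real.pi < 3.15 := Real.pi_lt_d2
  have hpi0 := Real.pi_pos
  refine ⟨fun H v => xrap_mmp_nonneg P H v, ?_, ?_, ?_, ?_, ?_, ?_, ?_, ?_⟩
  · intro H v k
    rw [norm_neg]
    exact PPf_le P hu H v k
  · obtain ⟨C, hC⟩ := hR.1
    exact ⟨c, hc, C, hC⟩
  · obtain ⟨c', h1, h2, h3⟩ := cell_f P hu c hc hR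
    refine ⟨c', h1, h2, fun M H hH => ?_⟩
    obtain ⟨T₀, V₀, h4⟩ := h3 M H hH
    refine ⟨T₀, V₀, fun v hv k hk1 hk2 => ?_⟩
    rw [norm_neg]
    exact h4 v hv k hk1 hk2
  · -- dec
    have he2 : 1 ≤ Real.exp 2 := Real.one_le_exp (by norm_num)
    have he20 : 0 < Real.exp 2 := Real.exp_pos 2
    refine ⟨max (C₂ * 5 * (1 + Real.exp 2) * C₁) (8 * C₁), lt_of_lt_of_le (by positivity)
      (le_max_right _ _), β, hβ, Z₁, fun H v₀ v₁ hH hv₀ hW Y hY => ?_⟩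
    obtain ⟨s, a, hs, hGG, ha⟩ := hdec H v₀ v₁ hH hW Y hY
    have hW' : WWp P H v₀ v₁ = ∑ v ∈ Ico v₀ v₁, mmp P H v := rfl
    have hY1 : 1 ≤ Y := by
      refine le_trans ?_ hY
      exact Real.one_le_exp (by positivity)
    refine ⟨fun k => DP s a k, ?_, ?_, ?_⟩
    · intro k
      have h1 := hGG k
      rw [h1, hW']
      congr 1
      simp only [neg_mul, Finset.sum_neg_distrib, mul_neg, neg_neg]
    · intro K hK hKY
      -- the elements of s are at least 1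
      have hs' : ∀ n ∈ s, max 1 (Y / Real.exp 2) ≤ (n : ℝ) ∧ (n : ℝ) ≤ Real.exp 2 * Y := by
        intro n hn
        obtain ⟨h1, h2⟩ := hs n hn
        refine ⟨max_le ?_ h1, h2⟩
        have h3 : 0 < (n : ℝ) := lt_of_lt_of_le (by positivity) h1
        have h4 : 0 < n := by exact_mod_cast h3
        exact_mod_cast h4
      have h12 : max 1 (Y / Real.exp 2) ≤ Real.exp 2 * Y := by
        apply max_le
        · nlinarith
        · rw [div_le_iff₀ he20]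
          nlinarith [mul_le_mul he2 he2 zero_le_one he20.le]
      have hm := hmv s a (max 1 (Y / Real.exp 2)) (Real.exp 2 * Y) K (le_max_left _ _) h12 hs' hK
      have hlog : Real.log (Real.exp 2 * Y / max 1 (Y / Real.exp 2)) ≤ 4 := by
        rw [Real.log_le_iff_le_exp (by positivity)]
        rw [div_le_iff₀ (by positivity)]
        have h5 : Real.exp 4 = Real.exp 2 * Real.exp 2 := by
          rw [← Real.exp_add]; norm_num
        rw [h5]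
        have h6 : Y / Real.exp 2 ≤ max 1 (Y / Real.exp 2) := le_max_right _ _
        have h7 : Y = Real.exp 2 * (Y / Real.exp 2) := by field_simp
        calc Real.exp 2 * Y = Real.exp 2 * Real.exp 2 * (Y / Real.exp 2) := by
              field_simp
          _ ≤ _ := mul_le_mul_of_nonneg_left h6 (by positivity)
      have hsum : ∑ n ∈ s, ‖a n‖ ^ 2 * ((n : ℝ) + K) ≤
          (1 + Real.exp 2) * ∑ n ∈ s, (n : ℝ) * ‖a n‖ ^ 2 := by
        rw [Finset.mul_sum]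
        refine Finset.sum_le_sum fun n hn => ?_
        obtain ⟨h1, -⟩ := hs n hn
        rw [div_le_iff₀ he20] at h1
        have h2 : (K : ℝ) ≤ Real.exp 2 * n := by linarith
        have h3 : 0 ≤ ‖a n‖ ^ 2 := by positivity
        nlinarith
      have hS0 : 0 ≤ ∑ n ∈ s, (n : ℝ) * ‖a n‖ ^ 2 := Finset.sum_nonneg fun n _ => by positivity
      have hR0 : 0 ≤ 1 / (∑ v ∈ Ico v₀ v₁, mmp P H v) + 1 / (H : ℝ) ^ 2 := by
        have : 0 ≤ ∑ v ∈ Ico v₀ v₁, mmp P H v := by linarith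
        positivity
      calc ∑ k ∈ FK K, ‖DP s a k‖ ^ 2 ≤ _ := hm
        _ ≤ C₂ * 5 * ((1 + Real.exp 2) * ∑ n ∈ s, (n : ℝ) * ‖a n‖ ^ 2) := by
            refine mul_le_mul ?_ hsum (Finset.sum_nonneg fun n _ => by positivity) (by positivity)
            exact mul_le_mul_of_nonneg_left (by linarith) hC₂.le
        _ ≤ C₂ * 5 * ((1 + Real.exp 2) * (C₁ * (1 / (∑ v ∈ Ico v₀ v₁, mmp P H v) +
              1 / (H : ℝ) ^ 2))) := by
            refine mul_le_mul_of_nonneg_left ?_ (by positivity)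
            exact mul_le_mul_of_nonneg_left ha (by positivity)
        _ = (C₂ * 5 * (1 + Real.exp 2) * C₁) * (1 / (∑ v ∈ Ico v₀ v₁, mmp P H v) +
              1 / (H : ℝ) ^ 2) := by ring
        _ ≤ _ := mul_le_mul_of_nonneg_right (le_max_left _ _) hR0
    · intro hZY U hU hcard
      have h1 := hZ₁ Y hZY U hU hcard s a hs
      have hR0 : 0 ≤ 1 / (∑ v ∈ Ico v₀ v₁, mmp P H v) + 1 / (H : ℝ) ^ 2 := by
        have : 0 ≤ ∑ v ∈ Ico v₀ v₁, mmp P H v := by linarith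
        positivity
      calc ∑ k ∈ U, ‖DP s a k‖ ^ 2 ≤ _ := h1
        _ ≤ 8 * (C₁ * (1 / (∑ v ∈ Ico v₀ v₁, mmp P H v) + 1 / (H : ℝ) ^ 2)) := by
            refine mul_le_mul (by linarith) ha (Finset.sum_nonneg fun n _ => by positivity)
              (by norm_num)
        _ = (8 * C₁) * (1 / (∑ v ∈ Ico v₀ v₁, mmp P H v) + 1 / (H : ℝ) ^ 2) := by ring
        _ ≤ _ := mul_le_mul_of_nonneg_right (le_max_right _ _) hR0
  · obtain ⟨C, hC, h⟩ := mom_zero_gen g hb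
    exact ⟨C, hC, h⟩
  · -- momP
    obtain ⟨C, hC, h⟩ := momP_f P u hu
    refine ⟨4 * (C + 1), by linarith, fun H r ℓ K hH hK hKe => ?_⟩
    have h1 := h H r ℓ K hH hK hKe
    have e1 : ∀ k, ‖-PPf P u H r k‖ ^ (2 * ℓ) = ‖PPf P u H r k‖ ^ (2 * ℓ) := fun k => by
      rw [norm_neg]
    rw [Finset.sum_congr rfl fun k _ => e1 k]
    refine h1.trans ?_
    have hH1 : (1 : ℝ) ≤ H := by exact_mod_cast hH
    have h2 : 1 + (ℓ : ℝ) / H ≤ 2 ^ ℓ := by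
      have h3 : (ℓ : ℝ) / H ≤ ℓ := div_le_self (Nat.cast_nonneg _) hH1
      have := succ_le_two_pow ℓ
      linarith
    have h3 : (ℓ.factorial : ℝ) ≤ (ℓ.factorial : ℝ) ^ 8 := by
      have := fac8_ge ℓ 1 (by norm_num)
      rwa [pow_one] at this
    calc C * (1 + (ℓ : ℝ) / H) * 2 ^ ℓ * (ℓ.factorial : ℝ)
        ≤ (C + 1) * 2 ^ ℓ * 2 ^ ℓ * (ℓ.factorial : ℝ) ^ 8 := by gcongr; linarith
      _ = (C + 1) * 4 ^ ℓ * (ℓ.factorial : ℝ) ^ 8 := by
          rw [show (4 : ℝ) = 2 * 2 by norm_num, mul_pow]; ring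
      _ ≤ (4 * (C + 1)) ^ (ℓ + 1) * (ℓ.factorial : ℝ) ^ 8 := by
          refine mul_le_mul_of_nonneg_right ?_ (by positivity)
          rw [mul_pow, pow_succ 4 ℓ, pow_succ (C + 1) ℓ]
          have h5 : 1 ≤ (C + 1) ^ ℓ := one_le_pow₀ (by linarith)
          have h6 : (0 : ℝ) < 4 ^ ℓ := by positivity
          have h7 : (C + 1) * 4 ^ ℓ ≤ (C + 1) ^ ℓ * ((C + 1) * 4 ^ ℓ) :=
            le_mul_of_one_le_left (by positivity) h5
          nlinarith [mul_pos (mul_pos h6 (by linarith : (0:ℝ) < C + 1)) (by positivity : 0 < (C + 1) ^ ℓ)]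
  · -- mom
    obtain ⟨C, hC, h⟩ := mom_f P u g hu hb
    refine ⟨9 * (C + 1) * 4, by linarith, fun H r ℓ K Z hH hZ hK hKe => ?_⟩
    have h1 := h H r ℓ K Z hH hZ hK hKe
    have e1 : ∀ k, ‖(-PPf P u H r k) ^ ℓ * GGg g Z k‖ ^ 2 = ‖PPf P u H r k ^ ℓ * GGg g Z k‖ ^ 2 := by
      intro k
      rw [norm_mul, norm_mul, norm_pow, norm_pow, norm_neg]
    rw [Finset.sum_congr rfl fun k _ => e1 k]
    refine h1.trans ?_
    have hH1 : (1 : ℝ) ≤ H := by exact_mod_cast hH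
    have h2 : 3 + (ℓ : ℝ) / H ≤ 3 * 2 ^ ℓ := by
      have h3 : (ℓ : ℝ) / H ≤ ℓ := div_le_self (Nat.cast_nonneg _) hH1
      have := succ_le_two_pow ℓ
      have : (0 : ℝ) ≤ ℓ := Nat.cast_nonneg _
      linarith
    have h3 := fac8_ge ℓ 2 (by norm_num)
    calc C * (3 + (ℓ : ℝ) / H) ^ 2 * (ℓ.factorial : ℝ) ^ 2
        ≤ (C + 1) * (3 * 2 ^ ℓ) ^ 2 * (ℓ.factorial : ℝ) ^ 8 := by gcongr; linarith
      _ = 9 * (C + 1) * 4 ^ ℓ * (ℓ.factorial : ℝ) ^ 8 := by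
          have e4 : (3 * (2 : ℝ) ^ ℓ) ^ 2 = 9 * 4 ^ ℓ := by
            have e5 : (4 : ℝ) ^ ℓ = 2 ^ ℓ * 2 ^ ℓ := by rw [← mul_pow]; norm_num
            rw [e5]; ring
          rw [e4]; ring
      _ ≤ (9 * (C + 1) * 4) ^ (ℓ + 1) * (ℓ.factorial : ℝ) ^ 8 := by
          refine mul_le_mul_of_nonneg_right ?_ (by positivity)
          rw [mul_pow, pow_succ 4 ℓ, pow_succ (9 * (C + 1)) ℓ]
          have h5 : 1 ≤ (9 * (C + 1)) ^ ℓ := one_le_pow₀ (by linarith)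
          have h6 : (0 : ℝ) < 4 ^ ℓ := by positivity
          have h7 : 9 * (C + 1) * 4 ^ ℓ ≤ (9 * (C + 1)) ^ ℓ * (9 * (C + 1) * 4 ^ ℓ) :=
            le_mul_of_one_le_left (by positivity) h5
          nlinarith [mul_pos (mul_pos h6 (by linarith : (0:ℝ) < 9 * (C + 1)))
            (by positivity : 0 < (9 * (C + 1)) ^ ℓ)]
  · -- sparse
    refine ⟨8, by norm_num, β, hβ, max 1 (max Z₁ Z₂), fun Z hZ U hU hcard => ?_⟩
    have hZ1 : 1 ≤ Z := (le_max_left _ _).trans hZ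
    have hZZ₁ : Z₁ ≤ Z := ((le_max_left _ _).trans (le_max_right _ _)).trans hZ
    have hZZ₂ : Z₂ ≤ Z := ((le_max_right _ _).trans (le_max_right _ _)).trans hZ
    refine (xupart_GG g hb Z (by linarith) _ (by positivity) U (hZ₁ Z hZZ₁ U hU hcard)).trans ?_
    refine (mul_le_mul_of_nonneg_left (hZ₂ Z hZZ₂) (by positivity)).trans ?_
    linarith

/-- large frequencies -/
theorem mr_large (P : ℕ → Prop) (u g : ℕ → ℤ) (hu : ∀ n, |u n| ≤ 1) (hb : Bdd g) (hf : Tw P u g)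
    (c : ℝ) (hc : 0 < c) (hR : Rich P c) (η : ℝ) (hη : 0 < η) :
    ∃ T₀ : ℕ, ∃ h : ℝ, 1 ≤ h ∧ ∃ Y₀ : ℝ, ∀ Y : ℝ, Y₀ ≤ Y →
    ∑ k ∈ (FK ⌊Y / h⌋₊).filter (fun k : ℤ => T₀ ≤ k.natAbs), ‖GGg g Y k‖ ^ 2 ≤ η :=
  mach_of leva levb s_cnt upart _ _ _ (machR_f P u g hu hb hf c hc hR) η hη

end Pool.Agent.Y872.L
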