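import Pool.Agent.Y872.L.Short2
import Pool.Agent.TH833.BL.J4542

/-!
Project LT (helper872): a logarithmic mean for which the short averages in residue classes vanish.
-/

set_option autoImplicit false

namespace Pool.Agent.Y872.L

open Finset Filter
open Pool.Agent.TH112.BL (LM Bd)
open Pool.Agent.H970R2.X (GGg)

theorem cm_abs_le {f : ℕ → ℤ} (hf : CM f) (n : ℕ) : |(f n : ℝ)| ≤ 1 := by
  rcases Nat.eq_zero_or_pos n with h | h
  · subst h; rw [hf.zero]; simp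
  · rcases hf.val n h with h | h <;> rw [h] <;> simp

theorem rs_abs_le {f : ℕ → ℤ} (hf : CM f) (q c n : ℕ) : |(rs f q c n : ℝ)| ≤ 1 := by
  unfold rs
  split_ifs
  · exact cm_abs_le hf n
  · simp

theorem one_not_tendsto : ¬ Tendsto (fun N : ℕ => (1 / Real.log (N : ℝ)) *
    ∑ n ∈ Icc 1 N, (1 / (n : ℝ)) * (fun _ : ℕ => (1 : ℝ)) n) atTop (nhds 0) := by
  intro h
  have h1 := h.eventually (gt_mem_nhds (show (0 : ℝ) < 1 / 2 by norm_num))
  obtain ⟨N, hN, hN3⟩ := (h1.and (eventually_ge_atTop 3)).exists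
  have h2 := Pool.Agent.TH833.BL.le_H N
  have h3 := Pool.Agent.TH833.BL.one_le_log hN3
  have h4 : ∑ n ∈ Icc 1 N, (1 / (n : ℝ)) * (fun _ : ℕ => (1 : ℝ)) n = Pool.Agent.TH833.BL.H N := by
    unfold Pool.Agent.TH833.BL.H
    exact Finset.sum_congr rfl fun n _ => by simp
  rw [h4] at hN
  have h5 : Real.log (N : ℝ) ≤ Pool.Agent.TH833.BL.H N :=
    (Real.log_le_log (by positivity) (by linarith)).trans h2
  have h6 : (1 : ℝ) ≤ (1 / Real.log (N : ℝ)) * Pool.Agent.TH833.BL.H N := by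
    rw [div_mul_eq_mul_div, one_mul, le_div_iff₀ (by linarith)]
    linarith
  linarith

theorem exists_mean (f : ℕ → ℤ) (hf : CM f) (hlow : ∀ q c : ℕ, 0 < q → c < q → ∀ k : ℤ,
      Tendsto (fun I : ℕ => (∑ i ∈ range I, ‖GGg (rs f q c) (Real.exp i) k‖ ^ 2) / I)
        atTop (nhds 0)) :
    ∃ μ : LM, RR μ f ∧ μ.m (fun n => (f n : ℝ)) = 0 := by
  obtain ⟨μ, -, hμ⟩ := Pool.Agent.TH833.BL.mean_exists (fun _ => 1) ⟨1, fun _ => by simp⟩
    one_not_tendsto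
  have hbd : ∀ q c W : ℕ, Bd (fun n => |∑ j ∈ range W, (rs f q c (n + j) : ℝ)|) := by
    intro q c W
    refine ⟨W, fun n => ?_⟩
    rw [abs_abs]
    calc |∑ j ∈ range W, (rs f q c (n + j) : ℝ)| ≤ ∑ j ∈ range W, |(rs f q c (n + j) : ℝ)| :=
          Finset.abs_sum_le_sum_abs _ _
      _ ≤ ∑ j ∈ range W, 1 := Finset.sum_le_sum fun j _ => rs_abs_le hf q c _
      _ = W := by simp
  have hRR : RR μ f := by
    intro q c hq hc ε hε
    obtain ⟨W₀, hW₀⟩ := short_log f hf hlow q c hq hc ε hε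
    refine ⟨W₀, fun W hW => ?_⟩
    exact hμ _ (hbd q c W) _ (hW₀ W hW)
  refine ⟨μ, hRR, ?_⟩
  have hfb : Bd (fun n => (f n : ℝ)) := ⟨1, fun n => cm_abs_le hf n⟩
  by_contra hne
  have hpos : 0 < |μ.m (fun n => (f n : ℝ))| := abs_pos.2 hne
  obtain ⟨W₀, hW₀⟩ := hRR 1 0 one_pos one_pos (|μ.m (fun n => (f n : ℝ))| / 2) (by positivity)
  have h1 := hW₀ (W₀ + 1) (by omega)
  have h2 : μ.m (fun n => ∑ j ∈ range (W₀ + 1), (rs f 1 0 (n + j) : ℝ)) =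
      ((W₀ + 1 : ℕ) : ℝ) * μ.m (fun n => (f n : ℝ)) := by
    have e : ∀ n : ℕ, (rs f 1 0 n : ℝ) = (f n : ℝ) := by
      intro n; unfold rs; rw [if_pos (Nat.mod_one n)]
    have e2 : (fun n => ∑ j ∈ range (W₀ + 1), (rs f 1 0 (n + j) : ℝ)) =
        (fun n => ∑ j ∈ range (W₀ + 1), (fun j n => (f (n + j) : ℝ)) j n) := by
      funext n
      exact Finset.sum_congr rfl fun j _ => e _
    rw [e2, μ.sum (range (W₀ + 1)) (φ := fun j n => (f (n + j) : ℝ)) (fun j _ => hfb.comp _)]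
    have e3 : ∀ j ∈ range (W₀ + 1), μ.m (fun n => (f (n + j) : ℝ)) = μ.m (fun n => (f n : ℝ)) :=
      fun j _ => μ.shiftk j hfb
    rw [Finset.sum_congr rfl e3]
    simp
  have hb2 : Bd (fun n => ∑ j ∈ range (W₀ + 1), (rs f 1 0 (n + j) : ℝ)) := by
    obtain ⟨C, hC⟩ := hbd 1 0 (W₀ + 1)
    exact ⟨C, fun n => by simpa using hC n⟩
  have h3 := μ.abs_le hb2
  rw [h2, abs_mul, abs_of_nonneg (by positivity : (0 : ℝ) ≤ ((W₀ + 1 : ℕ) : ℝ))] at h3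
  have h4 : ((W₀ + 1 : ℕ) : ℝ) * |μ.m (fun n => (f n : ℝ))| ≤
      |μ.m (fun n => (f n : ℝ))| / 2 * ((W₀ + 1 : ℕ) : ℝ) := h3.trans h1
  have h5 : (0 : ℝ) < ((W₀ + 1 : ℕ) : ℝ) := by positivity
  nlinarith

end Pool.Agent.Y872.L
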