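import Pool.Agent.Y872.L.Dec
import Pool.Agent.H970R2.X.Mom

/-!
Project LT (helper872): mean values with powers of the twisted prime sums.
Adapted from `H970R2/X/Mom.lean`.
-/

set_option autoImplicit false

namespace Pool.Agent.Y872.L
open Finset Filter Pool.Agent.H376R2.MR Pool.Agent.H970R2.X

theorem momf_prod_norm {u : ℕ → ℤ} (hu : ∀ n, |u n| ≤ 1) {ℓ : ℕ} (p : Fin ℓ → ℕ) :
    ‖((∏ i, u (p i) : ℤ) : ℂ)‖ ≤ 1 := by
  rw [Complex.norm_intCast]
  have h : |∏ i, u (p i)| ≤ 1 := by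
    rw [Finset.abs_prod]
    exact Finset.prod_le_one (fun i _ => abs_nonneg _) (fun i _ => hu _)
  exact_mod_cast h

theorem momf_PP_pow (P : ℕ → Prop) (u : ℕ → ℤ) (H r ℓ : ℕ) (k : ℤ) :
    PPf P u H r k ^ ℓ = ∑ p ∈ Fintype.piFinset (fun _ : Fin ℓ => cellP P H r),
      ((∏ i, u (p i) : ℤ) : ℂ) *
        (ch k (Real.log ((∏ i, p i : ℕ) : ℝ)) / ((∏ i, p i : ℕ) : ℂ)) := by
  unfold PPf
  rw [Finset.sum_pow']
  apply Finset.sum_congr rfl
  intro p hp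
  rw [Fintype.mem_piFinset] at hp
  rw [Finset.prod_mul_distrib, mom_ch_prod k p fun i => mom_cell_pos (xmom_cellP_sub P H r (hp i))]
  push_cast
  ring

/-- `c_n` for `PPf^ℓ` -/
noncomputable def momfCP (P : ℕ → Prop) (u : ℕ → ℤ) (H r ℓ n : ℕ) : ℂ :=
  (∑ p ∈ (Fintype.piFinset (fun _ : Fin ℓ => cellP P H r)).filter (fun p => (∏ i, p i) = n),
    ((∏ i, u (p i) : ℤ) : ℂ)) / (n : ℂ)

theorem momf_CP_norm (P : ℕ → Prop) {u : ℕ → ℤ} (hu : ∀ n, |u n| ≤ 1) (H r ℓ n : ℕ) :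
    ‖momfCP P u H r ℓ n‖ ≤ (ge (cell H r) ℓ n : ℝ) / n := by
  unfold momfCP
  rw [norm_div, Complex.norm_natCast]
  apply div_le_div_of_nonneg_right _ (Nat.cast_nonneg n)
  refine (norm_sum_le _ _).trans ((Finset.sum_le_sum fun p _ => momf_prod_norm hu p).trans ?_)
  rw [Finset.sum_const, nsmul_eq_mul, mul_one]
  have h := xmom_ge_le P H r ℓ n
  unfold ge at h ⊢
  exact_mod_cast h

theorem momf_PP_DP (P : ℕ → Prop) (u : ℕ → ℤ) (H r ℓ : ℕ) (k : ℤ) :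
    PPf P u H r k ^ ℓ =
      DP ((Fintype.piFinset (fun _ : Fin ℓ => cellP P H r)).image (fun p => ∏ i, p i))
      (momfCP P u H r ℓ) k := by
  rw [momf_PP_pow]
  unfold DP
  rw [← Finset.sum_fiberwise_of_maps_to (g := fun p : Fin ℓ → ℕ => ∏ i, p i)
    (fun p hp => Finset.mem_image_of_mem _ hp)]
  apply Finset.sum_congr rfl
  intro n _
  unfold momfCP
  rw [div_mul_eq_mul_div, Finset.sum_mul, Finset.sum_div]
  apply Finset.sum_congr rfl
  intro p hp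
  rw [Finset.mem_filter] at hp
  rw [hp.2]
  ring

theorem momP_f (P : ℕ → Prop) (u : ℕ → ℤ) (hu : ∀ n, |u n| ≤ 1) : ∃ C : ℝ, 0 < C ∧ ∀ (H r ℓ K : ℕ), 1 ≤ H → 1 ≤ K →
    (K : ℝ) ≤ Real.exp ((r : ℝ) * ℓ / H) →
    ∑ k ∈ FK K, ‖PPf P u H r k‖ ^ (2 * ℓ) ≤
      C * (1 + (ℓ : ℝ) / H) * 2 ^ ℓ * (ℓ.factorial : ℝ) := by
  obtain ⟨C, hC, hmv⟩ := mv
  refine ⟨2 * C, by positivity, ?_⟩
  intro H r ℓ K hH hK hKe
  set t := (Fintype.piFinset (fun _ : Fin ℓ => cellP P H r)).image (fun p => ∏ i, p i) with ht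
  set N₁ : ℝ := Real.exp ((r : ℝ) * ℓ / H) with hN1
  set N₂ : ℝ := Real.exp (((r : ℝ) + 1) * ℓ / H) with hN2
  have hHpos : (0 : ℝ) < H := by exact_mod_cast hH
  have h1 : (1 : ℝ) ≤ N₁ := Real.one_le_exp (by positivity)
  have h12 : N₁ ≤ N₂ := by
    apply Real.exp_le_exp.2
    gcongr
    linarith
  have hmem : ∀ n ∈ t, N₁ ≤ (n : ℝ) ∧ (n : ℝ) ≤ N₂ := by
    intro n hn
    rw [ht, Finset.mem_image] at hn
    obtain ⟨p, hp', rfl⟩ := hn
    have hp := xmom_pi_sub P H r ℓ hp'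
    have hpos : (0 : ℝ) < ((∏ i, p i : ℕ) : ℝ) := by exact_mod_cast mom_prod_pos hp
    have := mom_prod_log hp
    constructor
    · rw [hN1, ← Real.le_log_iff_exp_le hpos]
      exact this.1
    · rw [hN2, ← Real.log_le_iff_le_exp hpos]
      exact this.2
  have hlog : Real.log (N₂ / N₁) = ℓ / H := by
    rw [hN1, hN2, ← Real.exp_sub, Real.log_exp]
    ring
  have hm := hmv t (momfCP P u H r ℓ) N₁ N₂ K h1 h12 hmem hK
  rw [hlog] at hm
  calc ∑ k ∈ FK K, ‖PPf P u H r k‖ ^ (2 * ℓ) = ∑ k ∈ FK K, ‖DP t (momfCP P u H r ℓ) k‖ ^ 2 := by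
        apply Finset.sum_congr rfl
        intro k _
        rw [← momf_PP_DP, norm_pow, ← pow_mul, mul_comm]
    _ ≤ _ := hm
    _ ≤ C * (1 + (ℓ : ℝ) / H) * ∑ n ∈ t, 2 * ((ge (cell H r) ℓ n : ℝ) ^ 2 / n) := by
        apply mul_le_mul_of_nonneg_left _ (by positivity)
        apply Finset.sum_le_sum
        intro n hn
        have hn1 := (hmem n hn).1
        have hnpos : (0 : ℝ) < n := by linarith
        have hKn : (K : ℝ) ≤ n := hKe.trans hn1
        have hge := momf_CP_norm P hu H r ℓ n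
        calc ‖momfCP P u H r ℓ n‖ ^ 2 * ((n : ℝ) + K)
            ≤ ((ge (cell H r) ℓ n : ℝ) / n) ^ 2 * ((n : ℝ) + n) := by gcongr
          _ = 2 * ((ge (cell H r) ℓ n : ℝ) ^ 2 / n) := by
              field_simp
              ring
    _ = C * (1 + (ℓ : ℝ) / H) * (2 * ∑ n ∈ t, ((ge (cell H r) ℓ n : ℝ) ^ 2 / n)) := by
        rw [← Finset.mul_sum]
    _ ≤ C * (1 + (ℓ : ℝ) / H) * (2 * ((ℓ.factorial : ℝ) * 2 ^ ℓ)) := by
        have := sum_ge_sq H r ℓ hH t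
        gcongr
    _ = 2 * C * (1 + (ℓ : ℝ) / H) * 2 ^ ℓ * (ℓ.factorial : ℝ) := by ring

/-! ### the product -/

/-- coefficients of the product -/
noncomputable def momfC (P : ℕ → Prop) (u g : ℕ → ℤ) (H r ℓ : ℕ) (Z : ℝ) (n : ℕ) : ℂ :=
  ∑ x ∈ (xmomPr P H r ℓ Z).filter (fun x => x.2 * ∏ i, x.1 i = n),
    ((∏ i, u (x.1 i) : ℤ) : ℂ) * (((g x.2 : ℂ) * (bw Z x.2 : ℂ)) / ((∏ i, x.1 i : ℕ) : ℂ))

theorem momf_prod_DP (P : ℕ → Prop) (u g : ℕ → ℤ) (H r ℓ : ℕ) (Z : ℝ) (k : ℤ) (t : Finset ℕ)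
    (ht : ∀ x ∈ xmomPr P H r ℓ Z, x.2 * ∏ i, x.1 i ∈ t) :
    PPf P u H r k ^ ℓ * GGg g Z k = DP t (momfC P u g H r ℓ Z) k := by
  rw [momf_PP_pow, xmom_GG_filter]
  unfold DP
  rw [Finset.sum_mul_sum, ← Finset.sum_product']
  change ∑ x ∈ xmomPr P H r ℓ Z, _ = _
  rw [← Finset.sum_fiberwise_of_maps_to ht]
  apply Finset.sum_congr rfl
  intro n _
  unfold momfC
  rw [Finset.sum_mul]
  apply Finset.sum_congr rfl
  intro x hx
  rw [Finset.mem_filter] at hx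
  obtain ⟨hx1, hx2⟩ := hx
  unfold xmomPr at hx1
  rw [Finset.mem_product, Finset.mem_filter] at hx1
  have hp := mom_prod_pos (xmom_pi_sub P H r ℓ hx1.1)
  have hm := (mom_bw_ne hx1.2.2).1
  have hlog : Real.log (n : ℝ) = Real.log (x.2 : ℝ) + Real.log ((∏ i, x.1 i : ℕ) : ℝ) := by
    rw [← hx2, Nat.cast_mul, Real.log_mul]
    · positivity
    · exact_mod_cast hp.ne'
  rw [hlog, mom_ch_add]
  ring

theorem momf_C_norm (P : ℕ → Prop) {u g : ℕ → ℤ} (hu : ∀ n, |u n| ≤ 1) (hb : Bdd g) (H r ℓ : ℕ) (Z : ℝ) (n : ℕ) :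
    ‖momfC P u g H r ℓ Z n‖ ≤ (gd (cell H r) ℓ n : ℝ) / n := by
  unfold momfC
  calc _ ≤ ∑ x ∈ (xmomPr P H r ℓ Z).filter (fun x => x.2 * ∏ i, x.1 i = n),
        ‖((∏ i, u (x.1 i) : ℤ) : ℂ) *
          (((g x.2 : ℂ) * (bw Z x.2 : ℂ)) / ((∏ i, x.1 i : ℕ) : ℂ))‖ := norm_sum_le _ _
    _ ≤ ∑ x ∈ (xmomPr P H r ℓ Z).filter (fun x => x.2 * ∏ i, x.1 i = n), 1 / (n : ℝ) := by
        apply Finset.sum_le_sum
        intro x hx
        rw [Finset.mem_filter] at hx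
        obtain ⟨hx1, hx2⟩ := hx
        rw [norm_mul, norm_div, Complex.norm_natCast, ← hx2]
        have := xmom_coef_norm hb Z x.2
        have hpn := momf_prod_norm hu x.1
        calc _ ≤ 1 * ((1 / (x.2 : ℝ)) / ((∏ i, x.1 i : ℕ) : ℝ)) := by gcongr
          _ = (1 / (x.2 : ℝ)) / ((∏ i, x.1 i : ℕ) : ℝ) := one_mul _
          _ = _ := by
            push_cast
            rw [div_div]
    _ = (((xmomPr P H r ℓ Z).filter (fun x => x.2 * ∏ i, x.1 i = n)).card : ℝ) / n := by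
        rw [Finset.sum_const, nsmul_eq_mul]
        ring
    _ ≤ (gd (cellP P H r) ℓ n : ℝ) / n := by
        have : ((xmomPr P H r ℓ Z).filter (fun x => x.2 * ∏ i, x.1 i = n)).card ≤
            gd (cellP P H r) ℓ n := by
          unfold gd
          apply Finset.card_le_card_of_injOn (fun x => x.1)
          · intro x hx
            rw [Finset.mem_coe, Finset.mem_filter] at hx
            obtain ⟨hx1, hx2⟩ := hx
            unfold xmomPr at hx1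
            rw [Finset.mem_product] at hx1
            rw [Finset.mem_coe, Finset.mem_filter]
            exact ⟨hx1.1, ⟨x.2, by rw [← hx2]; ring⟩⟩
          · intro x hx y hy hxy
            rw [Finset.mem_coe, Finset.mem_filter] at hx hy
            obtain ⟨hx1, hx2⟩ := hx
            obtain ⟨_, hy2⟩ := hy
            unfold xmomPr at hx1
            rw [Finset.mem_product] at hx1
            have hp := mom_prod_pos (xmom_pi_sub P H r ℓ hx1.1)
            have hxy' : x.1 = y.1 := hxy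
            apply Prod.ext hxy'
            rw [← hxy'] at hy2
            exact Nat.eq_of_mul_eq_mul_right hp (hx2.trans hy2.symm)
        gcongr
    _ ≤ (gd (cell H r) ℓ n : ℝ) / n := by
        have := xmom_gd_le P H r ℓ n
        gcongr

theorem mom_f (P : ℕ → Prop) (u g : ℕ → ℤ) (hu : ∀ n, |u n| ≤ 1) (hb : Bdd g) :
    ∃ C : ℝ, 0 < C ∧ ∀ (H r ℓ K : ℕ) (Z : ℝ), 1 ≤ H → 3 ≤ Z → 1 ≤ K →
    (K : ℝ) ≤ Z * Real.exp ((r : ℝ) * ℓ / H) →
    ∑ k ∈ FK K, ‖PPf P u H r k ^ ℓ * GGg g Z k‖ ^ 2 ≤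
      C * (3 + (ℓ : ℝ) / H) ^ 2 * (ℓ.factorial : ℝ) ^ 2 := by
  obtain ⟨C, hC, hmv⟩ := mv
  obtain ⟨C', hC', hgd⟩ := sum_gd_sq
  set e := Real.exp 1 with he
  have he0 : 0 < e := Real.exp_pos 1
  have he3 : e < 3 := Real.exp_one_lt_three
  have he1 : 1 ≤ e := Real.one_le_exp zero_le_one
  refine ⟨C * 4 * C', by positivity, ?_⟩
  intro H r ℓ K Z hH hZ hK hKe
  have hZ0 : 0 < Z := by linarith
  have hHpos : (0 : ℝ) < H := by exact_mod_cast hH
  set A : ℝ := Real.exp ((r : ℝ) * ℓ / H) with hA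
  set B : ℝ := Real.exp (((r : ℝ) + 1) * ℓ / H) with hB
  have hA1 : (1 : ℝ) ≤ A := Real.one_le_exp (by positivity)
  have hAB : A ≤ B := by
    apply Real.exp_le_exp.2
    gcongr
    linarith
  have hA0 : 0 < A := by linarith
  have hB0 : 0 < B := by linarith
  have hZe : (1 : ℝ) ≤ Z / e := by
    rw [le_div_iff₀ he0]
    linarith
  have h1 : (1 : ℝ) ≤ Z / e * A := by nlinarith
  have h12 : Z / e * A ≤ e * Z * B := by
    have : Z / e ≤ e * Z := by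
      rw [div_le_iff₀ he0]
      calc Z = 1 * Z * 1 := by ring
        _ ≤ e * Z * e := by gcongr
    gcongr
  set t := Icc ⌈Z / e * A⌉₊ ⌊e * Z * B⌋₊ with ht
  have hmem : ∀ n ∈ t, Z / e * A ≤ (n : ℝ) ∧ (n : ℝ) ≤ e * Z * B := by
    intro n hn
    rw [ht, Finset.mem_Icc] at hn
    exact ⟨Nat.ceil_le.1 hn.1, (Nat.le_floor_iff (by positivity)).1 hn.2⟩
  have hmaps : ∀ x ∈ xmomPr P H r ℓ Z, x.2 * ∏ i, x.1 i ∈ t := by
    intro x hx
    unfold xmomPr at hx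
    rw [Finset.mem_product, Finset.mem_filter] at hx
    obtain ⟨hx1, hx2, hx3⟩ := hx
    obtain ⟨h0, hl1, hl2⟩ := mom_bw_ne hx3
    have hp := mom_prod_pos (xmom_pi_sub P H r ℓ hx1)
    obtain ⟨hq1, hq2⟩ := mom_prod_log (xmom_pi_sub P H r ℓ hx1)
    have hpr : (0 : ℝ) < ((∏ i, x.1 i : ℕ) : ℝ) := by exact_mod_cast hp
    have hx2r : (0 : ℝ) < (x.2 : ℝ) := by exact_mod_cast h0
    have hlogn : Real.log ((x.2 * ∏ i, x.1 i : ℕ) : ℝ) =
        Real.log (x.2 : ℝ) + Real.log ((∏ i, x.1 i : ℕ) : ℝ) := by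
      rw [Nat.cast_mul, Real.log_mul hx2r.ne' hpr.ne']
    have hnpos : (0 : ℝ) < ((x.2 * ∏ i, x.1 i : ℕ) : ℝ) := by
      rw [Nat.cast_mul]
      positivity
    rw [ht, Finset.mem_Icc]
    constructor
    · apply Nat.ceil_le.2
      rw [← Real.log_le_log_iff (by positivity) hnpos, hlogn, Real.log_mul (by positivity) hA0.ne',
        Real.log_div hZ0.ne' he0.ne', he, Real.log_exp, hA, Real.log_exp]
      linarith
    · apply (Nat.le_floor_iff (by positivity)).2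
      rw [← Real.log_le_log_iff hnpos (by positivity), hlogn, Real.log_mul (by positivity) hB0.ne',
        Real.log_mul he0.ne' hZ0.ne', he, Real.log_exp, hB, Real.log_exp]
      linarith
  have hlog : Real.log (e * Z * B / (Z / e * A)) = 2 + ℓ / H := by
    rw [Real.log_div (by positivity) (by positivity), Real.log_mul (by positivity) hB0.ne',
      Real.log_mul he0.ne' hZ0.ne', Real.log_mul (by positivity) hA0.ne',
      Real.log_div hZ0.ne' he0.ne', he, hA, hB, Real.log_exp, Real.log_exp, Real.log_exp]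
    ring
  have hm := hmv t (momfC P u g H r ℓ Z) (Z / e * A) (e * Z * B) K h1 h12 hmem hK
  rw [hlog] at hm
  have hg := hgd H r ℓ (Z / e * A) (e * Z * B) hH h1 h12
  rw [hlog, ← ht] at hg
  calc ∑ k ∈ FK K, ‖PPf P u H r k ^ ℓ * GGg g Z k‖ ^ 2
      = ∑ k ∈ FK K, ‖DP t (momfC P u g H r ℓ Z) k‖ ^ 2 := by
        apply Finset.sum_congr rfl
        intro k _
        rw [momf_prod_DP P u g H r ℓ Z k t hmaps]
    _ ≤ _ := hm
    _ ≤ C * (1 + (2 + (ℓ : ℝ) / H)) * ∑ n ∈ t, 4 * ((gd (cell H r) ℓ n : ℝ) ^ 2 / n) := by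
        apply mul_le_mul_of_nonneg_left _ (by positivity)
        apply Finset.sum_le_sum
        intro n hn
        have hn1 := (hmem n hn).1
        have hnpos : (0 : ℝ) < n := by linarith
        have hKn : (K : ℝ) ≤ 3 * n := by
          calc (K : ℝ) ≤ Z * A := hKe
            _ = e * (Z / e * A) := by field_simp
            _ ≤ e * n := by gcongr
            _ ≤ 3 * n := by gcongr
        have hcn := momf_C_norm P hu hb H r ℓ Z n
        calc ‖momfC P u g H r ℓ Z n‖ ^ 2 * ((n : ℝ) + K)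
            ≤ ((gd (cell H r) ℓ n : ℝ) / n) ^ 2 * ((n : ℝ) + 3 * n) := by gcongr
          _ = 4 * ((gd (cell H r) ℓ n : ℝ) ^ 2 / n) := by
              field_simp
              ring
    _ = C * (1 + (2 + (ℓ : ℝ) / H)) * (4 * ∑ n ∈ t, ((gd (cell H r) ℓ n : ℝ) ^ 2 / n)) := by
        rw [← Finset.mul_sum]
    _ ≤ C * (1 + (2 + (ℓ : ℝ) / H)) *
        (4 * (C' * (ℓ.factorial : ℝ) ^ 2 * (1 + (2 + (ℓ : ℝ) / H)))) := by gcongr
    _ = C * 4 * C' * (3 + (ℓ : ℝ) / H) ^ 2 * (ℓ.factorial : ℝ) ^ 2 := by ring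

end Pool.Agent.Y872.L
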