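import Pool.Agent.Y872.L.Defs
import Pool.Agent.Y872.L.Inst
import Pool.Agent.TH823.MRS.Scale

/-!
Project LT (helper872): short averages at most scales, logarithmic version.
-/

set_option autoImplicit false

namespace Pool.Agent.Y872.L
open Finset Filter Pool.Agent.H376R2.MR Pool.Agent.H970R2.X
open Pool.Agent.TH823.MRS (bw_sum w_part pt main_bound interp_point)

/-- one scale -/
lemma scale1 (g : ℕ → ℤ) (hb : Bdd g) (h : ℝ) (hh : 1 ≤ h) (ε : ℝ) (hε : 0 < ε) (A : ℝ) (hA : 0 ≤ A) :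
    ∃ H₀ Y₀ : ℝ, ∀ Y : ℝ, Y₀ ≤ Y → ∑ k ∈ FK ⌊Y / h⌋₊, ‖GGg g Y k‖ ^ 2 ≤ (ε / 4) ^ 2 →
      ∀ H : ℝ, H₀ ≤ H → ∀ T : ℕ → ℂ,
      (∀ n : ℕ, (n : ℝ) ≤ 24 * Y → ‖T n‖ ≤ H) →
      (∀ n m : ℕ, (n : ℝ) ≤ 24 * Y → (m : ℝ) ≤ 24 * Y → ‖T n - T m‖ ≤ A * |(n : ℝ) - m|) →
      ‖∑ n ∈ WN Y, ((g n : ℂ) * (bw Y n : ℂ)) * T n‖ ≤ ε * H := by
  obtain ⟨D, hDd⟩ : ∃ D : ℕ, D = ⌈1088 / ε⌉₊ + 2 := ⟨_, rfl⟩
  have hD2 : 2 ≤ D := by omega
  have hD0 : (0 : ℝ) < D := by exact_mod_cast (by omega : 0 < D)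
  have hDε : 1088 / ε ≤ D := by
    rw [hDd]
    push_cast
    have := Nat.le_ceil (1088 / ε)
    linarith
  refine ⟨8 * (A * (35 * h * (D + 1) + 1)) * 4 / ε, h * (4 * (D + 1) + 1), fun Y hY h2 H hH T hT hT2 => ?_⟩
  have hY2 : h * (4 * (D + 1) + 1) ≤ Y := hY
  have hh0 : 0 < h := by linarith
  have hYh : 4 * ((D : ℝ) + 1) + 1 ≤ Y / h := by
    rw [le_div_iff₀ hh0]; linarith
  have hYh0 : 0 ≤ Y / h := by
    have : (0 : ℝ) ≤ 4 * ((D : ℝ) + 1) + 1 := by positivity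
    linarith
  obtain ⟨K, hK⟩ : ∃ K, K = ⌊Y / h⌋₊ := ⟨_, rfl⟩
  have hKle : (K : ℝ) ≤ Y / h := by rw [hK]; exact Nat.floor_le hYh0
  have hKlt : Y / h < K + 1 := by rw [hK]; exact Nat.lt_floor_add_one _
  have hK4 : 4 * ((D : ℝ) + 1) ≤ K := by linarith
  have hK1 : 1 ≤ K := by
    have : (1 : ℝ) ≤ K := by linarith
    exact_mod_cast this
  have hK1r : (1 : ℝ) ≤ K := by exact_mod_cast hK1
  have hKY : Y ≤ 2 * h * K := by
    rw [div_lt_iff₀ hh0] at hKlt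
    nlinarith
  have hY1' : 1 ≤ Y := by
    have : (1 : ℝ) ≤ h * (4 * (D + 1) + 1) := by nlinarith
    linarith
  have hH0 : 0 ≤ H := (norm_nonneg _).trans (hT 0 (by push_cast; linarith))
  rw [← hK] at h2
  obtain ⟨S, hS⟩ : ∃ S : ℕ → ℂ, S = fun n : ℕ => (1 / (2 * K : ℕ) : ℂ) * ∑ j ∈ range (2 * K),
      T ⌊Real.exp (pt (Real.log Y - Real.pi) (2 * K) j)⌋₊ * (Fj K (Real.log n - pt (Real.log Y - Real.pi) (2 * K) j) : ℂ) := ⟨_, rfl⟩
  have hsplit : ∑ n ∈ WN Y, ((g n : ℂ) * (bw Y n : ℂ)) * T n =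
      ∑ n ∈ WN Y, ((g n : ℂ) * (bw Y n : ℂ)) * S n + ∑ n ∈ WN Y, ((g n : ℂ) * (bw Y n : ℂ)) * (T n - S n) := by
    rw [← sum_add_distrib]
    apply sum_congr rfl
    intro n _
    ring
  rw [hsplit]
  refine (norm_add_le _ _).trans ?_
  -- main term
  have hTj : ∀ j < 2 * K, ‖T ⌊Real.exp (pt (Real.log Y - Real.pi) (2 * K) j)⌋₊‖ ≤ H := by
    intro j hj
    apply hT
    refine (Nat.floor_le (Real.exp_pos _).le).trans ?_
    have hjK : (j : ℝ) ≤ 2 * K := by exact_mod_cast hj.le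
    have hK0 : (0 : ℝ) < K := by linarith
    have hpi := Real.pi_gt_three
    have hpi2 := Real.pi_lt_d2
    have hY0 : 0 < Y := by linarith
    have e1 : pt (Real.log Y - Real.pi) (2 * K) j ≤ Real.log Y + Real.pi := by
      unfold pt
      have : 2 * Real.pi * j / ((2 * K : ℕ) : ℝ) ≤ 2 * Real.pi := by
        push_cast
        rw [div_le_iff₀ (by positivity)]
        nlinarith
      linarith
    have e2 : Real.exp (pt (Real.log Y - Real.pi) (2 * K) j) ≤ Y * Real.exp Real.pi := by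
      refine (Real.exp_le_exp.2 e1).trans ?_
      rw [Real.exp_add, Real.exp_log hY0]
    have e3 : Real.exp Real.pi ≤ 24 := by
      have he := Real.exp_one_lt_d9
      have e4 : Real.exp Real.pi ≤ Real.exp (3.15) := Real.exp_le_exp.2 hpi2.le
      have e5 : Real.exp 3.15 = Real.exp 1 ^ 3 * Real.exp 0.15 := by
        rw [← Real.exp_nat_mul, ← Real.exp_add]
        norm_num
      have e6 : Real.exp 0.15 ≤ 1.1765 := by
        have := Real.exp_bound_div_one_sub_of_interval (x := 0.15) (by norm_num) (by norm_num)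
        refine this.trans ?_
        norm_num
      have e7 : Real.exp 1 ^ 3 ≤ 20.0856 := by
        have : Real.exp 1 ^ 3 ≤ 2.7182818286 ^ 3 := pow_le_pow_left₀ (Real.exp_pos _).le he.le 3
        refine this.trans ?_
        norm_num
      calc Real.exp Real.pi ≤ Real.exp 1 ^ 3 * Real.exp 0.15 := by rw [← e5]; exact e4
        _ ≤ 20.0856 * 1.1765 := mul_le_mul e7 e6 (Real.exp_pos _).le (by norm_num)
        _ ≤ 24 := by norm_num
    calc Real.exp (pt (Real.log Y - Real.pi) (2 * K) j) ≤ Y * Real.exp Real.pi := e2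
      _ ≤ Y * 24 := mul_le_mul_of_nonneg_left e3 hY0.le
      _ = _ := by ring
  have m1 : ‖∑ n ∈ WN Y, ((g n : ℂ) * (bw Y n : ℂ)) * S n‖ ≤ H * (ε / 4) := by
    rw [hS]
    refine (main_bound K hK1 (Real.log Y - Real.pi) (WN Y) (fun n => (g n : ℂ) * (bw Y n : ℂ))
      (fun j => T ⌊Real.exp (pt (Real.log Y - Real.pi) (2 * K) j)⌋₊) H hTj).trans ?_
    apply mul_le_mul_of_nonneg_left _ hH0
    rw [Real.sqrt_le_left (by positivity)]
    exact h2
  -- error term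
  have m2 : ‖∑ n ∈ WN Y, ((g n : ℂ) * (bw Y n : ℂ)) * (T n - S n)‖ ≤ 8 * (A * (35 * h * (D + 1) + 1) + 34 * H / D) := by
    have e1 : ∀ n ∈ WN Y, ‖((g n : ℂ) * (bw Y n : ℂ)) * (T n - S n)‖ ≤ bw Y n * (A * (35 * h * (D + 1) + 1) + 34 * H / D) := by
      intro n hn
      have hbn := loc_bw_nonneg Y n
      rw [norm_mul, norm_mul, Complex.norm_real, Real.norm_of_nonneg hbn]
      rcases eq_or_ne (bw Y n) 0 with h0 | h0
      · rw [h0]; simp
      have hlog := loc_bw_ne h0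
      have hn1 : 1 ≤ n := by
        unfold WN at hn
        rw [mem_Icc] at hn
        exact hn.1
      have e2 := interp_point K hK1 D hD2 Y h hh hY1' hKY hK4 A H hA T hT hT2 n hn1 hlog
      have e3 : T n - S n = T n - (1 / (2 * K : ℕ) : ℂ) * ∑ j ∈ range (2 * K),
        T ⌊Real.exp (pt (Real.log Y - Real.pi) (2 * K) j)⌋₊ * (Fj K (Real.log n - pt (Real.log Y - Real.pi) (2 * K) j) : ℂ) := by
        rw [hS]
      rw [← e3] at e2
      have e4 : ‖(g n : ℂ)‖ ≤ 1 := by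
        rw [Complex.norm_intCast]
        exact_mod_cast hb n
      calc ‖(g n : ℂ)‖ * bw Y n * ‖T n - S n‖ ≤ 1 * bw Y n * (A * (35 * h * (D + 1) + 1) + 34 * H / D) := by
            apply mul_le_mul _ e2 (norm_nonneg _) (by positivity)
            exact mul_le_mul_of_nonneg_right e4 hbn
        _ = _ := by ring
    refine (norm_sum_le _ _).trans ((sum_le_sum e1).trans ?_)
    rw [← sum_mul]
    apply mul_le_mul_of_nonneg_right (bw_sum hY1')
    positivity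
  have m3 : 8 * (A * (35 * h * (D + 1) + 1)) ≤ ε / 4 * H := by
    rw [div_le_iff₀ hε] at hH
    linarith
  have m4 : 8 * (34 * H / D) ≤ ε / 4 * H := by
    rw [div_le_iff₀ hε] at hDε
    rw [mul_div_assoc', div_le_iff₀ hD0]
    nlinarith
  nlinarith


theorem rs_bdd {f : ℕ → ℤ} (hf : CM f) (q c : ℕ) : Bdd (rs f q c) := by
  intro n
  unfold rs
  split_ifs
  · rcases Nat.eq_zero_or_pos n with h | h
    · rw [h, hf.zero]; norm_num
    · rcases hf.val n h with h1 | h1 <;> rw [h1] <;> norm_num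
  · norm_num

theorem cm_abs {f : ℕ → ℤ} (hf : CM f) (n : ℕ) : |f n| ≤ 1 := by
  rcases Nat.eq_zero_or_pos n with h | h
  · rw [h, hf.zero]; norm_num
  · rcases hf.val n h with h1 | h1 <;> rw [h1] <;> norm_num

theorem rs_tw {f : ℕ → ℤ} (hf : CM f) (q c : ℕ) : Tw (P1 q) f (rs f q c) := by
  intro p m _ hP
  unfold rs
  have h1 : (p * m) % q = m % q := by
    unfold P1 at hP
    rw [Nat.mul_mod, hP, ← Nat.mul_mod, one_mul]
  rw [h1]
  split_ifs
  · rw [hf.mul]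
  · simp

/-- most scales are good -/
theorem good_scales (f : ℕ → ℤ) (hf : CM f) (hlow : ∀ q c : ℕ, 0 < q → c < q → ∀ k : ℤ,
      Tendsto (fun I : ℕ => (∑ i ∈ range I, ‖GGg (rs f q c) (Real.exp i) k‖ ^ 2) / I) atTop (nhds 0))
    (q c : ℕ) (hq : 0 < q) (hc : c < q) (η : ℝ) (hη : 0 < η) :
    ∃ h : ℝ, 1 ≤ h ∧ ∀ ρ : ℝ, 0 < ρ → ∃ I₀ : ℕ, ∀ I : ℕ, I₀ ≤ I →
      (((range I).filter (fun i : ℕ =>
        η < ∑ k ∈ FK ⌊Real.exp i / h⌋₊, ‖GGg (rs f q c) (Real.exp i) k‖ ^ 2)).card : ℝ) ≤ ρ * I := by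
  classical
  obtain ⟨c₀, hc₀, hR⟩ := rich_ap q hq
  obtain ⟨T₀, h, hh, Y₀, hmr⟩ := mr_large (P1 q) f (rs f q c) (cm_abs hf) (rs_bdd hf q c)
    (rs_tw hf q c) c₀ hc₀ hR (η / 2) (by linarith)
  refine ⟨h, hh, fun ρ hρ => ?_⟩
  set Lw : ℕ → ℝ := fun i => ∑ k ∈ FK T₀, ‖GGg (rs f q c) (Real.exp i) k‖ ^ 2 with hLw
  have hlim : Tendsto (fun I : ℕ => (∑ i ∈ range I, Lw i) / I) atTop (nhds 0) := by
    have h1 : Tendsto (fun I : ℕ => ∑ k ∈ FK T₀,
        (∑ i ∈ range I, ‖GGg (rs f q c) (Real.exp i) k‖ ^ 2) / I) atTop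
        (nhds (∑ _k ∈ FK T₀, (0 : ℝ))) := tendsto_finset_sum _ fun k _ => hlow q c hq hc k
    rw [Finset.sum_const_zero] at h1
    refine h1.congr fun I => ?_
    rw [← Finset.sum_div, Finset.sum_comm]
  have hev := (tendsto_order.1 hlim).2 (ρ / 2 * (η / 2)) (by positivity)
  obtain ⟨I₁, hI₁⟩ := eventually_atTop.1 hev
  obtain ⟨i₁, hi₁⟩ : ∃ i₁ : ℕ, ∀ i : ℕ, i₁ ≤ i → Y₀ ≤ Real.exp i := by
    have : Tendsto (fun i : ℕ => Real.exp i) atTop atTop :=
      Real.tendsto_exp_atTop.comp tendsto_natCast_atTop_atTop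
    exact eventually_atTop.1 (this.eventually_ge_atTop Y₀)
  obtain ⟨I₂, hI₂⟩ := exists_nat_ge (2 * (i₁ : ℝ) / ρ)
  refine ⟨max (max I₁ I₂) 1, fun I hI => ?_⟩
  have hI1 : I₁ ≤ I := (le_max_left _ _).trans ((le_max_left _ _).trans hI)
  have hI2 : I₂ ≤ I := (le_max_right _ _).trans ((le_max_left _ _).trans hI)
  have hI0 : (0 : ℝ) < I := by
    have : 1 ≤ I := (le_max_right _ _).trans hI
    exact_mod_cast this
  have hsub : (range I).filter (fun i : ℕ =>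
        η < ∑ k ∈ FK ⌊Real.exp i / h⌋₊, ‖GGg (rs f q c) (Real.exp i) k‖ ^ 2) ⊆
      range i₁ ∪ (range I).filter (fun i => η / 2 < Lw i) := by
    intro i hi
    rw [mem_filter] at hi
    rw [mem_union]
    by_cases h1 : i < i₁
    · left; exact mem_range.2 h1
    · right
      rw [mem_filter]
      refine ⟨hi.1, ?_⟩
      have h2 := hmr (Real.exp i) (hi₁ i (not_lt.1 h1))
      have h3 : ∑ k ∈ FK ⌊Real.exp i / h⌋₊, ‖GGg (rs f q c) (Real.exp i) k‖ ^ 2 ≤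
          ∑ k ∈ (FK ⌊Real.exp i / h⌋₊).filter (fun k : ℤ => T₀ ≤ k.natAbs),
            ‖GGg (rs f q c) (Real.exp i) k‖ ^ 2 + Lw i := by
        rw [← Finset.sum_filter_add_sum_filter_not (FK ⌊Real.exp i / h⌋₊)
          (fun k : ℤ => T₀ ≤ k.natAbs)]
        refine add_le_add le_rfl ?_
        refine Finset.sum_le_sum_of_subset_of_nonneg ?_ (fun _ _ _ => by positivity)
        intro k hk
        rw [mem_filter] at hk
        rw [FK, mem_Ioo]
        omega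
      have h4 := hi.2
      linarith
  have hcard1 : (((range I).filter (fun i => η / 2 < Lw i)).card : ℝ) * (η / 2) ≤
      ρ / 2 * (η / 2) * I := by
    have h1 := hI₁ I hI1
    rw [div_lt_iff₀ hI0] at h1
    refine le_trans ?_ h1.le
    calc (((range I).filter (fun i => η / 2 < Lw i)).card : ℝ) * (η / 2)
        = ∑ _i ∈ (range I).filter (fun i => η / 2 < Lw i), η / 2 := by
          rw [Finset.sum_const, nsmul_eq_mul]
      _ ≤ ∑ i ∈ (range I).filter (fun i => η / 2 < Lw i), Lw i :=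
          Finset.sum_le_sum fun i hi => (mem_filter.1 hi).2.le
      _ ≤ ∑ i ∈ range I, Lw i := Finset.sum_le_sum_of_subset_of_nonneg (filter_subset _ _)
          (fun i _ _ => Finset.sum_nonneg fun k _ => by positivity)
  have hcard2 : (((range I).filter (fun i => η / 2 < Lw i)).card : ℝ) ≤ ρ / 2 * I := by
    have h5 : 0 < η / 2 := by linarith
    have h6 : ρ / 2 * (η / 2) * I = (ρ / 2 * I) * (η / 2) := by ring
    rw [h6] at hcard1
    exact le_of_mul_le_mul_right hcard1 h5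
  have hcard3 : (i₁ : ℝ) ≤ ρ / 2 * I := by
    have h1 : 2 * (i₁ : ℝ) / ρ ≤ I := hI₂.trans (by exact_mod_cast hI2)
    rw [div_le_iff₀ hρ] at h1
    linarith
  have h7 := (Finset.card_le_card hsub).trans (Finset.card_union_le _ _)
  rw [card_range] at h7
  have h8 : (((range I).filter (fun i : ℕ =>
        η < ∑ k ∈ FK ⌊Real.exp i / h⌋₊, ‖GGg (rs f q c) (Real.exp i) k‖ ^ 2)).card : ℝ) ≤
      i₁ + (((range I).filter (fun i => η / 2 < Lw i)).card : ℝ) := by exact_mod_cast h7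
  linarith

end Pool.Agent.Y872.L
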