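import Pool.Agent.Y872.L.Short

/-!
Project LT (helper872): logarithmic averages of short averages in residue classes.
-/

set_option autoImplicit false

namespace Pool.Agent.Y872.L
open Finset Filter Pool.Agent.H376R2.MR Pool.Agent.H970R2.X
open Pool.Agent.TH823.MRS (bw_sum w_part)

/-- moving sums -/
noncomputable def Mv (θ : ℕ → ℝ) (W m : ℕ) : ℝ := ∑ x ∈ Ico (m + 1 - W) (m + 1), θ x

theorem Mv_lip (θ : ℕ → ℝ) (hθ : ∀ n, |θ n| ≤ 1) (W : ℕ) :
    (∀ m, |Mv θ W m| ≤ W) ∧ ∀ n m : ℕ, |Mv θ W n - Mv θ W m| ≤ 2 * |(n : ℝ) - m| := by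
  set Pp : ℕ → ℝ := fun k => ∑ x ∈ range k, θ x with hPp
  have hPl1 : ∀ a b : ℕ, a ≤ b → |Pp b - Pp a| ≤ (b : ℝ) - a := by
    intro a b hab
    have e : Pp b - Pp a = ∑ x ∈ Ico a b, θ x := (sum_Ico_eq_sub _ hab).symm
    rw [e]
    refine (abs_sum_le_sum_abs _ _).trans ((sum_le_sum fun x _ => hθ x).trans ?_)
    rw [sum_const, Nat.card_Ico, nsmul_eq_mul, mul_one, Nat.cast_sub hab]
  have hPl : ∀ a b : ℕ, |Pp a - Pp b| ≤ |(a : ℝ) - b| := by
    intro a b
    rcases le_total a b with h1 | h1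
    · rw [abs_sub_comm]
      refine (hPl1 a b h1).trans ?_
      rw [abs_sub_comm]
      exact le_abs_self _
    · exact (hPl1 b a h1).trans (le_abs_self _)
  have hTP : ∀ n : ℕ, Mv θ W n = Pp (n + 1) - Pp (n + 1 - W) :=
    fun n => sum_Ico_eq_sub _ (Nat.sub_le _ _)
  refine ⟨fun m => ?_, fun n m => ?_⟩
  · rw [hTP]
    refine (hPl1 _ _ (Nat.sub_le _ _)).trans ?_
    have : m + 1 ≤ (m + 1 - W) + W := by omega
    have h2 : ((m + 1 : ℕ) : ℝ) ≤ ((m + 1 - W : ℕ) : ℝ) + W := by exact_mod_cast this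
    linarith
  · have hsubl : ∀ n m : ℕ, |((n + 1 - W : ℕ) : ℝ) - ((m + 1 - W : ℕ) : ℝ)| ≤ |(n : ℝ) - m| := by
      have key : ∀ n m : ℕ, n ≤ m →
          |((n + 1 - W : ℕ) : ℝ) - ((m + 1 - W : ℕ) : ℝ)| ≤ (m : ℝ) - n := by
        intro n m hnm
        have h1 : n + 1 - W ≤ m + 1 - W := by omega
        have h2 : (m + 1 - W) + n ≤ (n + 1 - W) + m := by omega
        have h1' : ((n + 1 - W : ℕ) : ℝ) ≤ ((m + 1 - W : ℕ) : ℝ) := by exact_mod_cast h1
        have h2' : ((m + 1 - W : ℕ) : ℝ) + n ≤ ((n + 1 - W : ℕ) : ℝ) + m := by exact_mod_cast h2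
        rw [abs_sub_comm, abs_of_nonneg (by linarith)]
        linarith
      intro n m
      rcases le_total n m with h1 | h1
      · refine (key n m h1).trans ?_
        rw [abs_sub_comm]
        exact le_abs_self _
      · rw [abs_sub_comm]
        exact (key m n h1).trans (le_abs_self _)
    rw [hTP, hTP]
    have h1 := hPl (n + 1) (m + 1)
    have h2 := (hPl (n + 1 - W) (m + 1 - W)).trans (hsubl n m)
    have h3 : |((n + 1 : ℕ) : ℝ) - ((m + 1 : ℕ) : ℝ)| = |(n : ℝ) - m| := by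
      push_cast
      congr 1
      ring
    rw [h3] at h1
    have h4 : Pp (n + 1) - Pp (n + 1 - W) - (Pp (m + 1) - Pp (m + 1 - W)) =
      (Pp (n + 1) - Pp (m + 1)) - (Pp (n + 1 - W) - Pp (m + 1 - W)) := by ring
    rw [h4]
    exact (abs_sub _ _).trans (by linarith)

theorem sum_inv_sq_le (N : ℕ) : ∑ n ∈ Icc 1 N, 1 / (n : ℝ) ^ 2 ≤ 2 := xdec_inv_sq _

/-- the unfolding of the short sums -/
theorem unfold_short (g : ℕ → ℤ) (hb : Bdd g) (W N : ℕ) :
    ∃ θ : ℕ → ℝ, (∀ n, |θ n| ≤ 1) ∧ (∀ m, N + W < m → Mv θ W m = 0) ∧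
    ∑ n ∈ Icc 1 N, (1 / (n : ℝ)) * |∑ j ∈ range W, (g (n + j) : ℝ)| ≤
      2 * (W : ℝ) ^ 2 + |∑ m ∈ Icc 1 (N + W), (g m : ℝ) / m * Mv θ W m| := by
  set S : ℕ → ℝ := fun n => ∑ j ∈ range W, (g (n + j) : ℝ) with hS
  set sg : ℕ → ℝ := fun x => if 0 ≤ S x then 1 else -1 with hsg
  have hsg1 : ∀ x, |sg x| ≤ 1 := by
    intro x
    simp only [hsg]
    split_ifs <;> simp
  have hsgA : ∀ x, sg x * S x = |S x| := by
    intro x
    simp only [hsg]
    split_ifs with h1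
    · rw [one_mul, abs_of_nonneg h1]
    · rw [abs_of_neg (not_le.1 h1)]; ring
  set θ : ℕ → ℝ := fun x => if 1 ≤ x ∧ x ≤ N then sg x else 0 with hθ
  have hθ1 : ∀ x, |θ x| ≤ 1 := by
    intro x
    simp only [hθ]
    split_ifs
    · exact hsg1 x
    · simp
  have hMv : ∀ m, Mv θ W m = ∑ x ∈ Icc 1 N, if x ≤ m ∧ m < x + W then sg x else 0 := by
    intro m
    unfold Mv
    simp only [hθ]
    rw [← sum_filter, ← sum_filter]
    refine sum_congr ?_ fun _ _ => rfl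
    ext x
    rw [mem_filter, mem_filter, mem_Ico, mem_Icc]
    omega
  refine ⟨θ, hθ1, ?_, ?_⟩
  · intro m hm
    rw [hMv]
    refine sum_eq_zero fun x hx => ?_
    rw [mem_Icc] at hx
    rw [if_neg]
    omega
  · have hg1 : ∀ n, |(g n : ℝ)| ≤ 1 := by
      intro n
      rw [← Int.cast_abs]
      exact_mod_cast hb n
    have e1 : ∑ n ∈ Icc 1 N, (1 / (n : ℝ)) * |S n| =
        ∑ n ∈ Icc 1 N, ∑ j ∈ range W, sg n * (g (n + j) : ℝ) * (1 / (n : ℝ)) := by
      refine sum_congr rfl fun n _ => ?_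
      rw [← hsgA, hS]
      simp only [mul_sum]
      refine sum_congr rfl fun j _ => ?_
      ring
    have e2 : ∑ m ∈ Icc 1 (N + W), (g m : ℝ) / m * Mv θ W m =
        ∑ n ∈ Icc 1 N, ∑ j ∈ range W, sg n * (g (n + j) : ℝ) * (1 / ((n + j : ℕ) : ℝ)) := by
      simp_rw [hMv, mul_sum]
      rw [sum_comm]
      refine sum_congr rfl fun x hx => ?_
      rw [mem_Icc] at hx
      have e3 : ∀ m ∈ Icc 1 (N + W), (g m : ℝ) / m * (if x ≤ m ∧ m < x + W then sg x else 0) =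
          if x ≤ m ∧ m < x + W then sg x * (g m : ℝ) * (1 / (m : ℝ)) else 0 := by
        intro m _
        split_ifs
        · ring
        · ring
      rw [sum_congr rfl e3, ← sum_filter]
      have e4 : (Icc 1 (N + W)).filter (fun m => x ≤ m ∧ m < x + W) = Ico x (x + W) := by
        ext n
        rw [mem_filter, mem_Icc, mem_Ico]
        omega
      rw [e4, sum_Ico_eq_sum_range, Nat.add_sub_cancel_left]
    have e5 : ∑ n ∈ Icc 1 N, (1 / (n : ℝ)) * |S n| - ∑ m ∈ Icc 1 (N + W), (g m : ℝ) / m * Mv θ W m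
        ≤ 2 * (W : ℝ) ^ 2 := by
      rw [e1, e2, ← sum_sub_distrib]
      have e6 : ∀ n ∈ Icc 1 N, ∑ j ∈ range W, sg n * (g (n + j) : ℝ) * (1 / (n : ℝ)) -
          ∑ j ∈ range W, sg n * (g (n + j) : ℝ) * (1 / ((n + j : ℕ) : ℝ)) ≤
          (W : ℝ) ^ 2 * (1 / (n : ℝ) ^ 2) := by
        intro n hn
        rw [mem_Icc] at hn
        have hn0 : (0 : ℝ) < n := by exact_mod_cast hn.1
        rw [← sum_sub_distrib]
        have e7 : ∀ j ∈ range W, sg n * (g (n + j) : ℝ) * (1 / (n : ℝ)) -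
            sg n * (g (n + j) : ℝ) * (1 / ((n + j : ℕ) : ℝ)) ≤ (W : ℝ) * (1 / (n : ℝ) ^ 2) := by
          intro j hj
          rw [mem_range] at hj
          rw [← mul_sub]
          have hjW : (j : ℝ) ≤ W := by exact_mod_cast hj.le
          have hj0 : (0 : ℝ) ≤ j := Nat.cast_nonneg _
          have h1 : |sg n * (g (n + j) : ℝ)| ≤ 1 := by
            rw [abs_mul]
            exact mul_le_one₀ (hsg1 n) (abs_nonneg _) (hg1 _)
          have h2 : 1 / (n : ℝ) - 1 / ((n + j : ℕ) : ℝ) = j / (n * (n + j)) := by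
            push_cast
            field_simp
            ring
          have h3 : (0 : ℝ) ≤ j / (n * (n + j)) := by positivity
          have h4 : (j : ℝ) / (n * (n + j)) ≤ (W : ℝ) * (1 / (n : ℝ) ^ 2) := by
            rw [mul_one_div]
            apply div_le_div₀ (Nat.cast_nonneg _) hjW (by positivity)
            nlinarith
          rw [h2]
          calc sg n * (g (n + j) : ℝ) * (j / (n * (n + j)))
              ≤ |sg n * (g (n + j) : ℝ)| * (j / (n * (n + j))) :=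
                mul_le_mul_of_nonneg_right (le_abs_self _) h3
            _ ≤ 1 * (j / (n * (n + j))) := mul_le_mul_of_nonneg_right h1 h3
            _ ≤ _ := by rw [one_mul]; exact h4
        refine (sum_le_sum e7).trans (le_of_eq ?_)
        rw [sum_const, card_range, nsmul_eq_mul]
        ring
      refine (sum_le_sum e6).trans ?_
      rw [← mul_sum]
      have := sum_inv_sq_le N
      nlinarith [sq_nonneg (W : ℝ)]
    have := le_abs_self (∑ m ∈ Icc 1 (N + W), (g m : ℝ) / m * Mv θ W m)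
    linarith

/-- the partition into scales -/
theorem part_scales (g : ℕ → ℤ) (T : ℕ → ℝ) (M I : ℕ) (hI : Real.log M ≤ I)
    (hT : ∀ m, M < m → T m = 0) :
    ((∑ m ∈ Icc 1 M, (g m : ℝ) / m * T m : ℝ) : ℂ) =
      ∑ i ∈ range (I + 1), ∑ n ∈ WN (Real.exp i), ((g n : ℂ) * (bw (Real.exp i) n : ℂ)) * (T n : ℂ) := by
  have h1 : ∀ i : ℕ, ∑ n ∈ WN (Real.exp i), ((g n : ℂ) * (bw (Real.exp i) n : ℂ)) * (T n : ℂ) =
      ∑ m ∈ Icc 1 M, ((g m : ℂ) * (bw (Real.exp i) m : ℂ)) * (T m : ℂ) := by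
    intro i
    refine Finset.sum_congr_of_eq_on_inter ?_ ?_ ?_
    · intro m hm hm'
      have hm1 : 1 ≤ m := by unfold WN at hm; exact (mem_Icc.1 hm).1
      rw [mem_Icc] at hm'
      rw [hT m (by omega)]
      simp
    · intro m hm hm'
      have hm1 : 1 ≤ m := (mem_Icc.1 hm).1
      have hm0 : (0 : ℝ) < m := by exact_mod_cast hm1
      unfold WN at hm'
      rw [mem_Icc] at hm'
      push Not at hm'
      have f4 := hm' hm1
      rw [Nat.floor_lt (by positivity)] at f4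
      have f5 : Real.log (Real.exp 1 * Real.exp i) ≤ Real.log m := Real.log_le_log (by positivity) f4.le
      rw [← Real.exp_add, Real.log_exp] at f5
      have hz : w (Real.log m - Real.log (Real.exp (i : ℝ))) = 0 := by
        rw [Real.log_exp]
        apply tnt_w_zero
        rw [abs_of_nonneg (by linarith)]
        linarith
      unfold bw
      rw [hz]
      simp
    · intro _ _ _; rfl
  rw [sum_congr rfl fun i _ => h1 i, sum_comm]
  push_cast
  refine sum_congr rfl fun m hm => ?_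
  rw [mem_Icc] at hm
  have hm0 : (1 : ℝ) ≤ m := by exact_mod_cast hm.1
  have hmM : (m : ℝ) ≤ M := by exact_mod_cast hm.2
  have e1 := w_part (Real.log m) I (Real.log_nonneg hm0)
    ((Real.log_le_log (by linarith) hmM).trans hI)
  have e2 : ((∑ i ∈ range (I + 1), w (Real.log m - i) : ℝ) : ℂ) = 1 := by rw [e1]; norm_num
  rw [← sum_mul, ← mul_sum]
  have e3 : ∑ i ∈ range (I + 1), ((bw (Real.exp (i : ℝ)) m : ℝ) : ℂ) = 1 / (m : ℂ) := by
    have e4 : ∀ i ∈ range (I + 1), ((bw (Real.exp (i : ℝ)) m : ℝ) : ℂ) =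
        ((w (Real.log m - i) : ℝ) : ℂ) * (1 / (m : ℂ)) := by
      intro i _
      unfold bw
      rw [Real.log_exp]
      push_cast
      ring
    rw [sum_congr rfl e4, ← sum_mul]
    push_cast at e2
    rw [e2, one_mul]
  rw [e3]
  ring

theorem short_log (f : ℕ → ℤ) (hf : CM f) (hlow : ∀ q c : ℕ, 0 < q → c < q → ∀ k : ℤ,
      Tendsto (fun I : ℕ => (∑ i ∈ range I, ‖GGg (rs f q c) (Real.exp i) k‖ ^ 2) / I) atTop (nhds 0))
    (q c : ℕ) (hq : 0 < q) (hc : c < q) (ε : ℝ) (hε : 0 < ε) :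
    ∃ W₀ : ℕ, ∀ W : ℕ, W₀ ≤ W → ∃ N₀ : ℕ, ∀ N : ℕ, N₀ ≤ N →
      ∑ n ∈ Icc 1 N, (1 / (n : ℝ)) * |∑ j ∈ range W, (rs f q c (n + j) : ℝ)| ≤
        (ε * W) * Real.log N := by
  classical
  set g := rs f q c with hg
  have hb : Bdd g := rs_bdd hf q c
  obtain ⟨h, hh, hgood⟩ := good_scales f hf hlow q c hq hc ((ε / 8 / 4) ^ 2) (by positivity)
  obtain ⟨H₀, Y₀, hsc⟩ := scale1 g hb h hh (ε / 8) (by positivity) 2 (by norm_num)
  obtain ⟨I₀, hI₀⟩ := hgood (ε / 64) (by positivity)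
  obtain ⟨iY, hiY⟩ : ∃ i₁ : ℕ, ∀ i : ℕ, i₁ ≤ i → Y₀ ≤ Real.exp i := by
    have : Tendsto (fun i : ℕ => Real.exp i) atTop atTop :=
      Real.tendsto_exp_atTop.comp tendsto_natCast_atTop_atTop
    exact eventually_atTop.1 (this.eventually_ge_atTop Y₀)
  refine ⟨⌈H₀⌉₊, fun W hW => ?_⟩
  have hWH : H₀ ≤ (W : ℝ) := (Nat.le_ceil H₀).trans (by exact_mod_cast hW)
  -- choice of N₀
  obtain ⟨N₁, hN₁⟩ : ∃ N₁ : ℕ, ∀ N : ℕ, N₁ ≤ N →
      (I₀ : ℝ) + 3 + (2 * W + 8 * iY) * (2 / ε) ≤ Real.log N := by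
    have : Tendsto (fun N : ℕ => Real.log N) atTop atTop :=
      Real.tendsto_log_atTop.comp tendsto_natCast_atTop_atTop
    exact eventually_atTop.1 (this.eventually_ge_atTop _)
  refine ⟨max (max N₁ W) 1, fun N hN => ?_⟩
  have hNN₁ : N₁ ≤ N := (le_max_left _ _).trans ((le_max_left _ _).trans hN)
  have hNW : W ≤ N := (le_max_right _ _).trans ((le_max_left _ _).trans hN)
  have hN1 : 1 ≤ N := (le_max_right _ _).trans hN
  have hN0 : (0 : ℝ) < N := by exact_mod_cast hN1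
  have hlogN := hN₁ N hNN₁
  have hWnn : (0 : ℝ) ≤ W := Nat.cast_nonneg _
  have hpos : 0 ≤ (2 * (W : ℝ) + 8 * iY) * (2 / ε) := by positivity
  have hI00 : (0 : ℝ) ≤ I₀ := Nat.cast_nonneg _
  obtain ⟨θ, hθ1, hθ2, hθ3⟩ := unfold_short g hb W N
  obtain ⟨hM1, hM2⟩ := Mv_lip θ hθ1 W
  refine hθ3.trans ?_
  obtain ⟨I, hI⟩ : ∃ I, I = ⌈Real.log ((N + W : ℕ) : ℝ)⌉₊ := ⟨_, rfl⟩
  have hlogM0 : 0 ≤ Real.log ((N + W : ℕ) : ℝ) := Real.log_nonneg (by exact_mod_cast (by omega : 1 ≤ N + W))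
  have hIle : Real.log ((N + W : ℕ) : ℝ) ≤ I := by rw [hI]; exact Nat.le_ceil _
  have hIlt : (I : ℝ) < Real.log ((N + W : ℕ) : ℝ) + 1 := by rw [hI]; exact Nat.ceil_lt_add_one hlogM0
  have hlogM : Real.log ((N + W : ℕ) : ℝ) ≤ Real.log N + 1 := by
    have h1 : ((N + W : ℕ) : ℝ) ≤ Real.exp 1 * N := by
      have h2 : ((N + W : ℕ) : ℝ) ≤ 2 * N := by
        have : (W : ℝ) ≤ N := by exact_mod_cast hNW
        push_cast; linarith
      have h3 : (2 : ℝ) ≤ Real.exp 1 := by have := Real.exp_one_gt_d9; linarith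
      exact h2.trans (mul_le_mul_of_nonneg_right h3 hN0.le)
    have h4 := Real.log_le_log (by positivity) h1
    rw [Real.log_mul (Real.exp_ne_zero _) hN0.ne', Real.log_exp] at h4
    linarith
  have hlogNI : Real.log N ≤ I := by
    refine le_trans (Real.log_le_log hN0 ?_) hIle
    push_cast; linarith
  have hI0I : I₀ ≤ I + 1 := by
    have : (I₀ : ℝ) ≤ I := by linarith
    have : I₀ ≤ I := by exact_mod_cast this
    omega
  have hpart := part_scales g (Mv θ W) (N + W) I hIle hθ2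
  have habs : |∑ m ∈ Icc 1 (N + W), (g m : ℝ) / m * Mv θ W m| =
      ‖((∑ m ∈ Icc 1 (N + W), (g m : ℝ) / m * Mv θ W m : ℝ) : ℂ)‖ := by
    rw [Complex.norm_real, Real.norm_eq_abs]
  rw [habs, hpart]
  set B := (range (I + 1)).filter (fun i : ℕ =>
        (ε / 8 / 4) ^ 2 < ∑ k ∈ FK ⌊Real.exp i / h⌋₊, ‖GGg (rs f q c) (Real.exp i) k‖ ^ 2) with hB
  have hBcard : (B.card : ℝ) ≤ ε / 64 * ((I + 1 : ℕ) : ℝ) := hI₀ (I + 1) hI0I
  have hterm : ∀ i ∈ range (I + 1), ‖∑ n ∈ WN (Real.exp i), ((g n : ℂ) * (bw (Real.exp i) n : ℂ)) *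
      ((Mv θ W n : ℝ) : ℂ)‖ ≤ ε / 8 * W + (if i ∈ B ∨ i ∈ range iY then 8 * (W : ℝ) else 0) := by
    intro i hi
    have hexp1 : 1 ≤ Real.exp (i : ℝ) := Real.one_le_exp (Nat.cast_nonneg _)
    by_cases hbad : i ∈ B ∨ i ∈ range iY
    · rw [if_pos hbad]
      have h1 : ‖∑ n ∈ WN (Real.exp i), ((g n : ℂ) * (bw (Real.exp i) n : ℂ)) *
          ((Mv θ W n : ℝ) : ℂ)‖ ≤ ∑ n ∈ WN (Real.exp i), bw (Real.exp i) n * W := by
        refine (norm_sum_le _ _).trans (sum_le_sum fun n _ => ?_)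
        rw [norm_mul, norm_mul, Complex.norm_real, Complex.norm_real, Real.norm_eq_abs,
          Real.norm_eq_abs, abs_of_nonneg (loc_bw_nonneg _ n)]
        have h2 : ‖(g n : ℂ)‖ ≤ 1 := by
          rw [Complex.norm_intCast]
          exact_mod_cast hb n
        calc ‖(g n : ℂ)‖ * bw (Real.exp i) n * |Mv θ W n| ≤ 1 * bw (Real.exp i) n * W := by
              apply mul_le_mul _ (hM1 n) (abs_nonneg _)
              · have := loc_bw_nonneg (Real.exp i) n
                linarith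
              · exact mul_le_mul_of_nonneg_right h2 (loc_bw_nonneg _ n)
          _ = _ := by ring
      refine h1.trans ?_
      rw [← sum_mul]
      have h2 := mul_le_mul_of_nonneg_right (bw_sum hexp1) hWnn
      have h3 : 0 ≤ ε / 8 * W := by positivity
      linarith
    · rw [if_neg hbad, add_zero]
      push Not at hbad
      obtain ⟨hb1, hb2⟩ := hbad
      rw [mem_range, not_lt] at hb2
      have h1 : ∑ k ∈ FK ⌊Real.exp i / h⌋₊, ‖GGg g (Real.exp i) k‖ ^ 2 ≤ (ε / 8 / 4) ^ 2 := by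
        by_contra hcon
        apply hb1
        rw [hB, mem_filter]
        exact ⟨hi, not_le.1 hcon⟩
      refine hsc (Real.exp i) (hiY i hb2) h1 W hWH (fun n => ((Mv θ W n : ℝ) : ℂ)) ?_ ?_
      · intro n _
        rw [Complex.norm_real, Real.norm_eq_abs]
        exact hM1 n
      · intro n m _ _
        rw [← Complex.ofReal_sub, Complex.norm_real, Real.norm_eq_abs]
        exact hM2 n m
  have hsum : ‖∑ i ∈ range (I + 1), ∑ n ∈ WN (Real.exp i), ((g n : ℂ) * (bw (Real.exp i) n : ℂ)) *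
      ((Mv θ W n : ℝ) : ℂ)‖ ≤ ((I + 1 : ℕ) : ℝ) * (ε / 8 * W) + (B.card + iY) * (8 * W) := by
    refine (norm_sum_le _ _).trans ((sum_le_sum hterm).trans ?_)
    rw [sum_add_distrib, sum_const, card_range, nsmul_eq_mul, ← sum_filter, sum_const, nsmul_eq_mul]
    refine add_le_add le_rfl (mul_le_mul_of_nonneg_right ?_ (by positivity))
    have h1 : (range (I + 1)).filter (fun i => i ∈ B ∨ i ∈ range iY) ⊆ B ∪ range iY := by
      intro i hi
      rw [mem_filter] at hi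
      rw [mem_union]
      exact hi.2
    have h2 := (Finset.card_le_card h1).trans (Finset.card_union_le _ _)
    rw [card_range] at h2
    exact_mod_cast h2
  refine (add_le_add le_rfl hsum).trans ?_
  have hI1 : ((I + 1 : ℕ) : ℝ) ≤ Real.log N + 3 := by push_cast; linarith
  have hεI : ((I + 1 : ℕ) : ℝ) * (ε / 8 * W) + (B.card + iY) * (8 * W) ≤
      (Real.log N + 3) * (ε / 4) * W + 8 * iY * W := by
    have h1 : (B.card : ℝ) * (8 * W) ≤ ε / 64 * ((I + 1 : ℕ) : ℝ) * (8 * W) :=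
      mul_le_mul_of_nonneg_right hBcard (by positivity)
    have h2 : ((I + 1 : ℕ) : ℝ) * (ε / 4 * W) ≤ (Real.log N + 3) * (ε / 4 * W) :=
      mul_le_mul_of_nonneg_right hI1 (by positivity)
    nlinarith
  have hlog3 : Real.log N + 3 ≤ 2 * Real.log N := by linarith
  have h5 : (Real.log N + 3) * (ε / 4) * W ≤ 2 * Real.log N * (ε / 4) * W := by
    apply mul_le_mul_of_nonneg_right _ hWnn
    exact mul_le_mul_of_nonneg_right hlog3 (by positivity)
  have h6 : (2 * (W : ℝ) + 8 * iY) ≤ ε / 2 * Real.log N := by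
    have h7 : (2 * (W : ℝ) + 8 * iY) * (2 / ε) ≤ Real.log N := by linarith
    rw [mul_div_assoc', div_le_iff₀ hε] at h7
    linarith
  have h7 : (2 * (W : ℝ) + 8 * iY) * W ≤ ε / 2 * Real.log N * W :=
    mul_le_mul_of_nonneg_right h6 hWnn
  nlinarith

end Pool.Agent.Y872.L
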